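import Pool.Agent.TH779.Shat.Linear
import Pool.Agent.H362R2.RQ.Fin
import Pool.Agent.H362R2.RQ.Prop

/-! Shattered sets of prescribed points in the record windows. -/

set_option autoImplicit false

namespace Pool.Agent.TH779.Shat

open Finset Filter
open Pool.Agent.H362R2.RQ
open Pool.Agent.H256R2.SC (ff)

/-- the point `b` is approached by a prime of the class -/
def Hit (δ : ℝ) (q a : ℕ) (H : ℝ) (b : ℝ) (n : ℕ) : Prop :=
  ∃ p : ℕ, p.Prime ∧ p ≡ a [MOD q] ∧ |((p : ℝ) - n) / H - b| ≤ δ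

/-- all the primes of the window are in the class and close to one of the points -/
def Covered {m : ℕ} (δ : ℝ) (q a : ℕ) (H : ℝ) (b : Fin m → ℝ) (n : ℕ) : Prop :=
  ∀ p : ℕ, p.Prime → (n : ℝ) ≤ p → (p : ℝ) ≤ n + H → p ≡ a [MOD q] ∧ ∃ i, |((p : ℝ) - n) / H - b i| ≤ δ

open Classical in
/-- the set of the points that are approached -/
noncomputable def shape {m : ℕ} (δ : ℝ) (q a : ℕ) (H : ℝ) (b : Fin m → ℝ) (n : ℕ) : Finset (Fin m) :=
  univ.filter (fun i => Hit δ q a H (b i) n)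

theorem shape_sub {m : ℕ} {δ H : ℝ} (hH : 0 < H) {q a : ℕ} {b : Fin m → ℝ}
    (hb : ∀ i, δ ≤ b i ∧ b i ≤ 1 - δ) (hsep : ∀ i j, i ≠ j → 2 * δ < |b i - b j|)
    (A : Finset (Fin m)) {n : ℕ}
    (hn : ∀ p : ℕ, p.Prime → (n : ℝ) ≤ p → (p : ℝ) ≤ n + H → ∃ i ∈ A, |((p : ℝ) - n) / H - b i| ≤ δ) :
    shape δ q a H b n ⊆ A := by
  classical
  intro i hi
  rw [shape, mem_filter] at hi
  obtain ⟨-, p, hp, -, h⟩ := hi
  obtain ⟨hb1, hb2⟩ := hb i
  obtain ⟨h1, h2⟩ := abs_le.1 h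
  have h3 : 0 ≤ ((p : ℝ) - n) / H := by linarith
  have h4 : ((p : ℝ) - n) / H ≤ 1 := by linarith
  have h5 : (n : ℝ) ≤ p := by
    by_contra hcon
    push Not at hcon
    have : ((p : ℝ) - n) / H < 0 := div_neg_of_neg_of_pos (by linarith) hH
    linarith
  have h6 : (p : ℝ) ≤ n + H := by
    rw [div_le_iff₀ hH] at h4; linarith
  obtain ⟨j, hj, hj2⟩ := hn p hp h5 h6
  by_contra hcon
  have hij : i ≠ j := fun h => hcon (h ▸ hj)
  have h7 := hsep i j hij
  have h8 : |b i - b j| ≤ 2 * δ := by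
    have e : b i - b j = (((p : ℝ) - n) / H - b j) - (((p : ℝ) - n) / H - b i) := by ring
    rw [e]
    refine (abs_sub _ _).trans ?_
    linarith
  linarith

open Classical in
/-- the positions of the window -/
noncomputable def pos {m : ℕ} (δ : ℝ) (q a : ℕ) (H : ℝ) (b : Fin m → ℝ) (X : ℝ) : Finset ℕ :=
  (range (⌊4 * X⌋₊ + 1)).filter (fun n => X < n ∧ (n : ℝ) ≤ 4 * X ∧ Covered δ q a H b n)

theorem rec_main : ∃ c₀ : ℝ, 0 < c₀ ∧ ∀ m : ℕ, 2 ≤ m → ∃ c : ℝ, 0 < c ∧ ∀ δ : ℝ, 0 < δ →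
    ∀ q a : ℕ, Squarefree q → a.Coprime q → ∃ X₀ : ℝ, ∀ X : ℝ, X₀ ≤ X → ∀ H : ℝ, Real.log X ≤ H →
      H ≤ c * ff X → ∀ b : Fin m → ℝ, (∀ i, δ ≤ b i ∧ b i ≤ 1 - δ) →
      (∀ i j, i ≠ j → 2 * δ < |b i - b j|) →
      ∃ I : Finset (Fin m), c₀ * m ≤ I.card ∧ ∀ T ⊆ I, X ^ (7 / 8 : ℝ) / 2 ^ m ≤
        ({n : ℕ | X < n ∧ (n : ℝ) ≤ 4 * X ∧ Covered δ q a H b n ∧
          ∀ i ∈ I, Hit δ q a H (b i) n ↔ i ∈ T}.ncard : ℝ) := by
  classical
  obtain ⟨η, hη, hmain⟩ := prop_all stRQ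
  choose cf hcf hcm using hmain
  have hη1 : 0 < min η 1 := lt_min hη one_pos
  refine ⟨lin (min η 1), lin_pos hη1 (min_le_right _ _), fun m hm => ?_⟩
  have : Nonempty (Fin m) := ⟨⟨0, by omega⟩⟩
  set c : ℝ := (univ : Finset (Fin m)).inf' univ_nonempty (fun k => cf (k.val + 1) (by omega)) with hc
  have hcpos : 0 < c := by
    rw [hc, lt_inf'_iff]
    intro k _
    exact hcf _ _
  have hcle : ∀ k : Fin m, c ≤ cf (k.val + 1) (by omega) := fun k => inf'_le _ (mem_univ k)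
  refine ⟨c, hcpos, fun δ hδ q a hq ha => ?_⟩
  have hev : ∀ᶠ X : ℝ in atTop, ∀ k : Fin m, ∀ H : ℝ, Real.log X ≤ H →
      H ≤ cf (k.val + 1) (by omega) * ff X → ∀ b : Fin (k.val + 1) → ℝ, (∀ i, 0 ≤ b i ∧ b i ≤ 1) →
      X ^ (7 / 8 : ℝ) ≤
        ({n : ℕ | X < n ∧ (n : ℝ) ≤ 4 * X ∧ PointProp η δ q a H b n}.ncard : ℝ) := by
    rw [eventually_all]
    intro k
    exact hcm (k.val + 1) (by omega) δ hδ q a hq ha
  obtain ⟨X₀, hX₀⟩ := eventually_atTop.1 hev
  refine ⟨max X₀ 3, fun X hX H hH1 hH2 b hb hsep => ?_⟩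
  have hX3 : 3 ≤ X := (le_max_right _ _).trans hX
  have hXX := hX₀ X ((le_max_left _ _).trans hX)
  have hlog : 0 < Real.log X := Real.log_pos (by linarith)
  have hH : 0 < H := by linarith
  have hff : 0 < ff X := by
    by_contra hcon
    push Not at hcon
    have : c * ff X ≤ 0 := mul_nonpos_of_nonneg_of_nonpos hcpos.le hcon
    linarith
  set Y : ℝ := X ^ (7 / 8 : ℝ) with hY
  have hYpos : 0 < Y := by rw [hY]; positivity
  set N := pos δ q a H b X with hN
  have hNmem : ∀ n, n ∈ N ↔ (X < n ∧ (n : ℝ) ≤ 4 * X ∧ Covered δ q a H b n) := by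
    intro n
    rw [hN, pos, mem_filter, mem_range]
    constructor
    · exact fun h => h.2
    · intro h
      refine ⟨?_, h⟩
      have := Nat.le_floor h.2.1
      omega
  set F : Finset (Finset (Fin m)) :=
    univ.filter (fun J => Y / 2 ^ m ≤ ((N.filter (fun n => shape δ q a H b n = J)).card : ℝ)) with hF
  obtain ⟨I, hI, hIc⟩ := linear_shatter (η := min η 1) hη1 (min_le_right _ _) (α := Fin m)
    (by rw [Fintype.card_fin]; exact hm) F (by
    intro A hA
    have hAm : A.card ≤ m := by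
      have := card_le_univ A
      rwa [Fintype.card_fin] at this
    have hA1 : 0 < A.card := card_pos.2 hA
    obtain ⟨k, hk⟩ : ∃ k : Fin m, A.card = k.val + 1 :=
      ⟨⟨A.card - 1, by omega⟩, by simp only; omega⟩
    set e := A.orderEmbOfFin hk with he
    have h1 := hXX k H hH1 (hH2.trans (mul_le_mul_of_nonneg_right (hcle k) hff.le))
      (fun i => b (e i)) (fun i => ⟨hδ.le.trans (hb _).1, by have := (hb (e i)).2; linarith⟩)
    have heA : ∀ i, e i ∈ A := fun i => orderEmbOfFin_mem A hk i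
    -- the good positions
    have hgood : ∀ n : ℕ, PointProp η δ q a H (fun i => b (e i)) n →
        Covered δ q a H b n ∧ shape δ q a H b n ⊆ A ∧ η * A.card ≤ (shape δ q a H b n).card := by
      rintro n ⟨h2, J, hJ, h3⟩
      refine ⟨?_, ?_, ?_⟩
      · intro p hp hp1 hp2
        obtain ⟨h4, i, hi⟩ := h2 p hp hp1 hp2
        exact ⟨h4, e i, hi⟩
      · apply shape_sub hH hb hsep
        intro p hp hp1 hp2
        obtain ⟨h4, i, hi⟩ := h2 p hp hp1 hp2
        exact ⟨e i, heA i, hi⟩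
      · have h4 : J.map e.toEmbedding ⊆ shape δ q a H b n := by
          intro i hi
          rw [Finset.mem_map] at hi
          obtain ⟨j, hj, rfl⟩ := hi
          rw [shape, mem_filter]
          exact ⟨mem_univ _, h3 j hj⟩
        have h5 := card_le_card h4
        rw [card_map] at h5
        have h6 : (J.card : ℝ) ≤ (shape δ q a H b n).card := by exact_mod_cast h5
        refine le_trans ?_ h6
        rw [hk]; exact hJ
    by_contra hcon
    push Not at hcon
    set 𝒥 := A.powerset.filter (fun J => min η 1 * A.card ≤ (J.card : ℝ)) with hJJ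
    have h2 : ∀ J ∈ 𝒥, ((N.filter (fun n => shape δ q a H b n = J)).card : ℝ) < Y / 2 ^ m := by
      intro J hJ
      rw [hJJ, mem_filter, mem_powerset] at hJ
      by_contra hc2
      push Not at hc2
      have := hcon J (by rw [hF, mem_filter]; exact ⟨mem_univ _, hc2⟩) hJ.1
      linarith [hJ.2]
    have h3 : {n : ℕ | X < n ∧ (n : ℝ) ≤ 4 * X ∧ PointProp η δ q a H (fun i => b (e i)) n} ⊆
        ((𝒥.biUnion (fun J => N.filter (fun n => shape δ q a H b n = J)) : Finset ℕ) : Set ℕ) := by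
      rintro n ⟨hn1, hn2, hn3⟩
      obtain ⟨g1, g2, g3⟩ := hgood n hn3
      rw [mem_coe, mem_biUnion]
      refine ⟨shape δ q a H b n, ?_, ?_⟩
      · rw [hJJ, mem_filter, mem_powerset]
        refine ⟨g2, le_trans ?_ g3⟩
        exact mul_le_mul_of_nonneg_right (min_le_left _ _) (Nat.cast_nonneg _)
      · rw [mem_filter, hNmem]
        exact ⟨⟨hn1, hn2, g1⟩, rfl⟩
    have h4 := Set.ncard_le_ncard h3 (finite_toSet _)
    rw [Set.ncard_coe_finset] at h4
    have h5 : (({n : ℕ | X < n ∧ (n : ℝ) ≤ 4 * X ∧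
        PointProp η δ q a H (fun i => b (e i)) n}.ncard : ℕ) : ℝ) ≤
        ∑ J ∈ 𝒥, ((N.filter (fun n => shape δ q a H b n = J)).card : ℝ) := by
      refine (Nat.cast_le.2 (h4.trans card_biUnion_le)).trans ?_
      push_cast
      exact le_refl _
    have h6 : (∑ J ∈ 𝒥, ((N.filter (fun n => shape δ q a H b n = J)).card : ℝ)) < Y := by
      rcases 𝒥.eq_empty_or_nonempty with h0 | h0
      · rw [h0, sum_empty]; exact hYpos
      · calc (∑ J ∈ 𝒥, ((N.filter (fun n => shape δ q a H b n = J)).card : ℝ))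
            < ∑ J ∈ 𝒥, Y / 2 ^ m := sum_lt_sum_of_nonempty h0 h2
          _ = 𝒥.card * (Y / 2 ^ m) := by rw [sum_const, nsmul_eq_mul]
          _ ≤ 2 ^ m * (Y / 2 ^ m) := by
              apply mul_le_mul_of_nonneg_right _ (by positivity)
              have h7 : 𝒥.card ≤ 2 ^ A.card := (card_le_card (filter_subset _ _)).trans
                (card_powerset A).le
              have h8 : 𝒥.card ≤ 2 ^ m := h7.trans (Nat.pow_le_pow_right (by norm_num) hAm)
              exact_mod_cast h8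
          _ = Y := by field_simp
    linarith)
  rw [Fintype.card_fin] at hIc
  refine ⟨I, hIc, fun T hT => ?_⟩
  obtain ⟨J, hJ, hJT⟩ := hI hT
  rw [hF, mem_filter] at hJ
  refine hJ.2.trans ?_
  rw [Nat.cast_le, ← Set.ncard_coe_finset]
  apply Set.ncard_le_ncard
  · intro n hn
    rw [mem_coe, mem_filter, hNmem] at hn
    obtain ⟨⟨h1, h2, h3⟩, h4⟩ := hn
    refine ⟨h1, h2, h3, fun i hi => ?_⟩
    have h5 : Hit δ q a H (b i) n ↔ i ∈ shape δ q a H b n := by
      rw [shape, mem_filter]; simp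
    rw [h5, h4, ← hJT, mem_inter]
    tauto
  · apply (Set.finite_Iic ⌊4 * X⌋₊).subset
    intro n hn
    exact Nat.le_floor hn.2.1

end Pool.Agent.TH779.Shat
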