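import Mathlib

/-! An admissible set of `D / (2 log D)` primes up to `D`. -/

set_option autoImplicit false

namespace Pool.Agent.TH779.Shat

open Finset Filter

/-- the primes in `(D/10, D]` -/
def pset (D : ℕ) : Finset ℕ := (Ioc (D / 10) D).filter Nat.Prime

theorem pset_sum (D : ℕ) :
    ∑ p ∈ pset D, Real.log p = Chebyshev.theta D - Chebyshev.theta ((D / 10 : ℕ) : ℝ) := by
  unfold pset Chebyshev.theta
  rw [Nat.floor_natCast, Nat.floor_natCast]
  have h : D / 10 ≤ D := Nat.div_le_self _ _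
  have h1 : (Ioc 0 D).filter Nat.Prime =
      ((Ioc 0 (D / 10)).filter Nat.Prime) ∪ ((Ioc (D / 10) D).filter Nat.Prime) := by
    rw [← filter_union]
    congr 1
    ext x
    simp only [mem_Ioc, mem_union]
    omega
  have h2 : Disjoint ((Ioc 0 (D / 10)).filter Nat.Prime) ((Ioc (D / 10) D).filter Nat.Prime) := by
    rw [disjoint_left]
    intro x hx hx'
    simp only [mem_filter, mem_Ioc] at hx hx'
    omega
  rw [h1, sum_union h2]
  ring

theorem pset_card : ∃ D₀ : ℕ, ∀ D : ℕ, D₀ ≤ D →
    (D : ℝ) / (2 * Real.log D) ≤ (pset D).card ∧ (pset D).card ≤ D / 10 := by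
  have h1 : Tendsto (fun D : ℕ => ((D : ℝ)) ^ (1 / 4 : ℝ)) atTop atTop :=
    (tendsto_rpow_atTop (by norm_num)).comp tendsto_natCast_atTop_atTop
  have h2 : Tendsto (fun D : ℕ => Real.log (D / 10)) atTop atTop :=
    Real.tendsto_log_atTop.comp (tendsto_natCast_atTop_atTop.atTop_div_const (by norm_num))
  obtain ⟨D₁, hD₁⟩ := ((h1.eventually_ge_atTop 400).and
    (h2.eventually_ge_atTop 15)).exists_forall_of_atTop
  refine ⟨max D₁ 1000000, fun D hD => ?_⟩
  obtain ⟨h3, h4⟩ := hD₁ D ((le_max_left _ _).trans hD)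
  have hD6 : 1000000 ≤ D := (le_max_right _ _).trans hD
  have hDr : (1000000 : ℝ) ≤ D := by exact_mod_cast hD6
  have hDpos : (0 : ℝ) < D := by linarith
  have hlogpos : 0 < Real.log D := Real.log_pos (by linarith)
  have hlog2 : (0.6931471803 : ℝ) < Real.log 2 := Real.log_two_gt_d9
  have hlog2' : Real.log 2 < 0.6931471808 := Real.log_two_lt_d9
  have hlog4 : Real.log 4 = 2 * Real.log 2 := by
    rw [show (4 : ℝ) = 2 ^ 2 by norm_num, Real.log_pow]; norm_num
  have hdiv : (((D / 10 : ℕ)) : ℝ) ≤ D / 10 := Nat.cast_div_le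
  constructor
  · -- lower bound
    have h5 := Chebyshev.theta_ge D
    have h6 : Chebyshev.theta ((D / 10 : ℕ) : ℝ) ≤ Real.log 4 * ((D / 10 : ℕ) : ℝ) :=
      Chebyshev.theta_le_log4_mul_x (Nat.cast_nonneg _)
    have h7 : ∑ p ∈ pset D, Real.log p ≤ (pset D).card * Real.log D := by
      rw [← nsmul_eq_mul]
      apply sum_le_card_nsmul
      intro p hp
      simp only [pset, mem_filter, mem_Ioc] at hp
      exact Real.log_le_log (by exact_mod_cast hp.2.pos) (by exact_mod_cast hp.1.2)
    rw [pset_sum] at h7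
    have h8 : Real.log D ≤ 4 * (D : ℝ) ^ (1 / 4 : ℝ) := by
      have := Real.log_le_rpow_div hDpos.le (show (0 : ℝ) < 1 / 4 by norm_num)
      linarith
    have h9 : Real.sqrt D * (D : ℝ) ^ (1 / 4 : ℝ) * (D : ℝ) ^ (1 / 4 : ℝ) = D := by
      rw [Real.sqrt_eq_rpow, ← Real.rpow_add hDpos, ← Real.rpow_add hDpos]
      norm_num
    have h10 : Real.sqrt D * (D : ℝ) ^ (1 / 4 : ℝ) ≤ D / 400 := by
      have h11 : 0 ≤ Real.sqrt D * (D : ℝ) ^ (1 / 4 : ℝ) := by positivity
      rw [le_div_iff₀ (by norm_num)]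
      nlinarith
    have h11 : 2 * Real.sqrt D * Real.log D ≤ D / 50 := by
      have h12 : 2 * Real.sqrt D * Real.log D ≤
          2 * Real.sqrt D * (4 * (D : ℝ) ^ (1 / 4 : ℝ)) :=
        mul_le_mul_of_nonneg_left h8 (by positivity)
      nlinarith
    have h12 : Real.log ((D : ℝ) + 1) ≤ D / 50 := by
      have h13 : Real.log ((D : ℝ) + 1) ≤ Real.log D + 1 := by
        have h14 : Real.log ((D : ℝ) + 1) ≤ Real.log (2 * D) :=
          Real.log_le_log (by linarith) (by linarith)
        rw [Real.log_mul (by norm_num) hDpos.ne'] at h14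
        linarith
      have h14 : 2 * Real.sqrt D * Real.log D ≥ 2 * 1 * Real.log D := by
        have h15 : (1 : ℝ) ≤ Real.sqrt D := by
          rw [Real.one_le_sqrt]
          linarith
        have := mul_le_mul_of_nonneg_right h15 hlogpos.le
        nlinarith
      linarith
    have h13 : (1 / 2 : ℝ) * D ≤ (pset D).card * Real.log D := by
      rw [hlog4] at h6
      nlinarith
    rw [div_le_iff₀ (by positivity)]
    linarith
  · -- upper bound
    have h5 : (pset D).card * Real.log (D / 10) ≤ ∑ p ∈ pset D, Real.log p := by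
      rw [← nsmul_eq_mul]
      apply card_nsmul_le_sum
      intro p hp
      simp only [pset, mem_filter, mem_Ioc] at hp
      apply Real.log_le_log (by positivity)
      have h6 : D < (p : ℕ) * 10 := by
        have := hp.1.1
        omega
      have h7 : (D : ℝ) < p * 10 := by exact_mod_cast h6
      rw [div_le_iff₀ (by norm_num)]
      exact h7.le
    rw [pset_sum] at h5
    have h6 := Chebyshev.theta_nonneg ((D / 10 : ℕ) : ℝ)
    have h7 : Chebyshev.theta (D : ℝ) ≤ Real.log 4 * D := Chebyshev.theta_le_log4_mul_x hDpos.le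
    have h8 : ((pset D).card : ℝ) * 15 ≤ (pset D).card * Real.log (D / 10) :=
      mul_le_mul_of_nonneg_left h4 (Nat.cast_nonneg _)
    have h9 : ((pset D).card : ℝ) * 15 ≤ 1.4 * D := by
      rw [hlog4] at h7
      nlinarith
    have h10 : ((pset D).card : ℕ) * 10 ≤ D := by
      have : ((pset D).card : ℝ) * 10 ≤ D := by linarith
      exact_mod_cast this
    omega

/-- `pset D` misses a residue class modulo every prime -/
theorem pset_adm (D : ℕ) (hD : (pset D).card ≤ D / 10) (p : ℕ) (hp : p.Prime) :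
    ∃ r : ℕ, ∀ h ∈ pset D, ¬ p ∣ r + h := by
  rcases Nat.lt_or_ge (D / 10) p with h1 | h1
  · -- more classes than elements
    have : Fact p.Prime := ⟨hp⟩
    have h2 : ((pset D).image (fun h : ℕ => (-(h : ZMod p) : ZMod p))).card <
        Fintype.card (ZMod p) := by
      rw [ZMod.card p]
      exact (card_image_le.trans hD).trans_lt h1
    obtain ⟨r, hr⟩ : ∃ r : ZMod p, r ∉ (pset D).image (fun h : ℕ => (-(h : ZMod p) : ZMod p)) := by
      by_contra hcon
      push Not at hcon
      rw [eq_univ_iff_forall.2 hcon, card_univ] at h2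
      exact lt_irrefl _ h2
    refine ⟨r.val, fun h hh hd => hr ?_⟩
    rw [mem_image]
    refine ⟨h, hh, ?_⟩
    have h3 : ((r.val + h : ℕ) : ZMod p) = 0 := (ZMod.natCast_eq_zero_iff _ _).2 hd
    push_cast at h3
    rw [ZMod.natCast_zmod_val] at h3
    exact (eq_neg_of_add_eq_zero_left h3).symm
  · refine ⟨0, fun h hh hd => ?_⟩
    simp only [pset, mem_filter, mem_Ioc] at hh
    rw [zero_add] at hd
    have := (Nat.prime_dvd_prime_iff_eq hp hh.2).1 hd
    omega

end Pool.Agent.TH779.Shat
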