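import Mathlib

/-! Counting of set families hitting all sets of a given size, and the Sauer-Shelah lemma. -/

set_option autoImplicit false

namespace Pool.Agent.TH779.Shat

open Finset

theorem desc_ineq (K s : ℕ) (h : s ≤ K) (r : ℕ) :
    K ^ r * s.descFactorial r ≤ s ^ r * K.descFactorial r := by
  induction r with
  | zero => simp
  | succ r ih =>
    rw [Nat.descFactorial_succ, Nat.descFactorial_succ, pow_succ, pow_succ]
    have h1 : K * (s - r) ≤ s * (K - r) := by
      rcases Nat.lt_or_ge r s with h2 | h2
      · have h3 : r ≤ K := h2.le.trans h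
        zify [h2.le, h3]
        have : (s : ℤ) * r ≤ K * r := by
          apply mul_le_mul_of_nonneg_right _ (by positivity)
          exact_mod_cast h
        nlinarith
      · rw [Nat.sub_eq_zero_of_le h2]
        simp
    calc K ^ r * K * ((s - r) * s.descFactorial r)
        = (K ^ r * s.descFactorial r) * (K * (s - r)) := by ring
      _ ≤ (s ^ r * K.descFactorial r) * (s * (K - r)) := Nat.mul_le_mul ih h1
      _ = s ^ r * s * ((K - r) * K.descFactorial r) := by ring

theorem choose_ineq (K s : ℕ) (h : s ≤ K) (r : ℕ) (hr : r ≤ s) :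
    K ^ r * (K - r).choose (s - r) ≤ s ^ r * K.choose s := by
  have h1 := desc_ineq K s h r
  have h2 : K.choose s * s.choose r = K.choose r * (K - r).choose (s - r) :=
    Nat.choose_mul hr
  rw [Nat.descFactorial_eq_factorial_mul_choose, Nat.descFactorial_eq_factorial_mul_choose] at h1
  have h3 : K ^ r * s.choose r ≤ s ^ r * K.choose r := by
    have h4 : r.factorial * (K ^ r * s.choose r) ≤ r.factorial * (s ^ r * K.choose r) := by
      calc r.factorial * (K ^ r * s.choose r) = K ^ r * (r.factorial * s.choose r) := by ring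
        _ ≤ s ^ r * (r.factorial * K.choose r) := h1
        _ = _ := by ring
    exact Nat.le_of_mul_le_mul_left h4 (Nat.factorial_pos r)
  have h5 : 0 < s.choose r := Nat.choose_pos hr
  apply Nat.le_of_mul_le_mul_left _ h5
  have h6 : s.choose r * (K ^ r * (K - r).choose (s - r)) ≤
      (s ^ r * K.choose r) * (K - r).choose (s - r) := by
    calc s.choose r * (K ^ r * (K - r).choose (s - r))
        = (K ^ r * s.choose r) * (K - r).choose (s - r) := by ring
      _ ≤ _ := Nat.mul_le_mul_right _ h3
  refine h6.trans (le_of_eq ?_)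
  calc s ^ r * K.choose r * (K - r).choose (s - r)
      = s ^ r * (K.choose r * (K - r).choose (s - r)) := by ring
    _ = s ^ r * (K.choose s * s.choose r) := by rw [h2]
    _ = _ := by ring

/-- the number of `s`-element sets containing `T` -/
theorem card_supersets {α : Type*} [Fintype α] [DecidableEq α] (T : Finset α) (s : ℕ) :
    ((univ.powersetCard s).filter (fun S : Finset α => T ⊆ S)).card ≤
      (Fintype.card α - T.card).choose (s - T.card) := by
  have h1 : (univ \ T).card = Fintype.card α - T.card := by
    rw [card_sdiff_of_subset (subset_univ T), card_univ]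
  rw [← h1, ← card_powersetCard]
  apply card_le_card_of_injOn (fun S => S \ T)
  · intro S hS
    simp only [coe_filter, mem_powersetCard, subset_univ, true_and, Set.mem_ofPred_eq] at hS
    simp only [mem_coe, mem_powersetCard]
    refine ⟨sdiff_subset_sdiff (subset_univ _) (Subset.refl _), ?_⟩
    rw [card_sdiff_of_subset hS.2, hS.1]
  · intro S hS S' hS' h
    simp only [coe_filter, mem_powersetCard, subset_univ, true_and, Set.mem_ofPred_eq] at hS hS'
    have h2 : S \ T = S' \ T := h
    rw [← sdiff_union_of_subset hS.2, h2, sdiff_union_of_subset hS'.2]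

/-- A family of sets such that every `s`-element set contains a member with at least `r`
elements has at least `(K / s) ^ r` members. -/
theorem hitting {α : Type*} [Fintype α] [DecidableEq α] (F : Finset (Finset α)) (s r : ℕ)
    (hs : s ≤ Fintype.card α)
    (hF : ∀ S : Finset α, S.card = s → ∃ T ∈ F, T ⊆ S ∧ r ≤ T.card) :
    Fintype.card α ^ r * 1 ≤ s ^ r * F.card := by
  classical
  set K := Fintype.card α with hK
  -- r ≤ s
  obtain ⟨S₀, -, hS₀⟩ := exists_subset_card_eq (s := (univ : Finset α)) (n := s)
    (by rw [card_univ]; exact hs)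
  obtain ⟨T₀, -, hT₀, hT₀r⟩ := hF S₀ hS₀
  have hr : r ≤ s := hT₀r.trans ((card_le_card hT₀).trans hS₀.le)
  -- r-element subsets of the members
  have hsub : ∀ T : Finset α, ∃ T' : Finset α, T' ⊆ T ∧ (r ≤ T.card → T'.card = r) := by
    intro T
    by_cases h : r ≤ T.card
    · obtain ⟨T', h1, h2⟩ := exists_subset_card_eq h
      exact ⟨T', h1, fun _ => h2⟩
    · exact ⟨∅, empty_subset _, fun h' => absurd h' h⟩
  choose g hg1 hg2 using hsub
  have h1 : univ.powersetCard s ⊆ (F.filter (fun T => r ≤ T.card)).biUnion
      (fun T => (univ.powersetCard s).filter (fun S : Finset α => g T ⊆ S)) := by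
    intro S hS
    have hS' := (mem_powersetCard.1 hS).2
    obtain ⟨T, hT, hTS, hrT⟩ := hF S hS'
    rw [mem_biUnion]
    exact ⟨T, mem_filter.2 ⟨hT, hrT⟩, mem_filter.2 ⟨hS, (hg1 T).trans hTS⟩⟩
  have h2 := card_le_card h1
  rw [card_powersetCard, card_univ, ← hK] at h2
  have h3 : K.choose s ≤ F.card * (K - r).choose (s - r) := by
    refine h2.trans (card_biUnion_le.trans ?_)
    refine (sum_le_card_nsmul _ _ ((K - r).choose (s - r)) ?_).trans ?_
    · intro T hT
      have hT' := (mem_filter.1 hT).2
      have := card_supersets (g T) s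
      rw [hg2 T hT'] at this
      exact this
    · rw [smul_eq_mul]
      exact Nat.mul_le_mul_right _ (card_le_card (filter_subset _ _))
  have h4 := choose_ineq K s hs r hr
  have h5 : 0 < (K - r).choose (s - r) := Nat.choose_pos (by omega)
  apply Nat.le_of_mul_le_mul_left _ h5
  calc (K - r).choose (s - r) * (K ^ r * 1) = K ^ r * (K - r).choose (s - r) := by ring
    _ ≤ s ^ r * K.choose s := h4
    _ ≤ s ^ r * (F.card * (K - r).choose (s - r)) := Nat.mul_le_mul_left _ h3
    _ = _ := by ring

theorem sum_choose_le (K d : ℕ) : ∑ k ∈ Iic d, K.choose k ≤ (K + 1) ^ d := by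
  induction d with
  | zero =>
    have : (Iic 0 : Finset ℕ) = {0} := by ext; simp
    rw [this]; simp
  | succ d ih =>
    have h1 : (Iic (d + 1) : Finset ℕ) = insert (d + 1) (Iic d) := by
      ext x; simp only [mem_Iic, mem_insert]; omega
    rw [h1, sum_insert (by simp)]
    have h2 : K.choose (d + 1) ≤ K * (K + 1) ^ d := by
      calc K.choose (d + 1) ≤ K ^ (d + 1) := Nat.choose_le_pow K (d + 1)
        _ = K * K ^ d := by ring
        _ ≤ K * (K + 1) ^ d := Nat.mul_le_mul_left _ (Nat.pow_le_pow_left (Nat.le_succ K) d)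
    calc K.choose (d + 1) + ∑ k ∈ Iic d, K.choose k ≤ K * (K + 1) ^ d + (K + 1) ^ d :=
          Nat.add_le_add h2 ih
      _ = (K + 1) ^ (d + 1) := by ring

/-- A nonempty family shatters a set with `d` elements with `|F| ≤ (K + 1) ^ d`. -/
theorem exists_shattered {α : Type*} [Fintype α] [DecidableEq α] (F : Finset (Finset α))
    (hF : F.Nonempty) : ∃ B : Finset α, F.Shatters B ∧ F.card ≤ (Fintype.card α + 1) ^ B.card := by
  have h1 : F.shatterer.Nonempty := ⟨∅, mem_shatterer.2 (shatters_empty.2 hF)⟩
  obtain ⟨B, hB, hB2⟩ := exists_mem_eq_sup F.shatterer h1 card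
  refine ⟨B, mem_shatterer.1 hB, ?_⟩
  have h2 : F.vcDim = B.card := hB2
  rw [← h2]
  exact (card_le_card_shatterer F).trans (card_shatterer_le_sum_vcDim.trans (sum_choose_le _ _))

end Pool.Agent.TH779.Shat
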