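import Mathlib
import Pool.Agent.TH779.Shat.Comb

/-! Prime patterns inside arbitrary large subfamilies of a family of linear forms. -/

set_option autoImplicit false

namespace Pool.Agent.TH779.Shat

open Finset Filter

/-- Maynard-Tao with explicit numbers (the statement of `H358R5.forms_many`). -/
def FormsHyp : Prop := ∀ (m K : ℕ), 2 ≤ m → 4 * (m : ℝ) + 29 / 50 ≤ Real.log K →
    ∀ (a b : Fin K → ℕ), (∀ i, 1 ≤ a i) → (∀ i j, i ≠ j → a i * b j ≠ a j * b i) →
    (∀ p : ℕ, p.Prime → ∃ n : ℕ, ∀ i, ¬ p ∣ a i * n + b i) → ∀ ε : ℝ, 0 < ε →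
    ∀ᶠ x : ℝ in atTop, x ^ (1 - ε) ≤ (Set.ncard {n : ℕ | 1 ≤ n ∧ (n : ℝ) ≤ x ∧
      m + 1 ≤ Set.ncard {i : Fin K | (a i * n + b i).Prime}} : ℝ)

/-- the indices of the forms with prime values at `n` -/
noncomputable def tr {ι : Type*} [Fintype ι] (a b : ι → ℕ) (n : ℕ) : Finset ι := by
  classical exact univ.filter (fun i => (a i * n + b i).Prime)

theorem mem_tr {ι : Type*} [Fintype ι] (a b : ι → ℕ) (n : ℕ) (i : ι) :
    i ∈ tr a b n ↔ (a i * n + b i).Prime := by
  classical
  unfold tr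
  simp

/-- congruences which make the values of the forms outside `S` divisible by primes of the modulus,
the values of the forms in `S` prime to the modulus -/
theorem congruences {ι : Type*} [Fintype ι] [DecidableEq ι] (a b : ι → ℕ) (ha : ∀ i, 1 ≤ a i)
    (hne : ∀ i j, i ≠ j → a i * b j ≠ a j * b i) (S : Finset ι) (E : Finset ι)
    (hE : Disjoint E S) : ∃ W ν : ℕ, 1 ≤ W ∧
      (∀ i ∈ E, ∃ p : ℕ, p.Prime ∧ p ∣ W ∧ p ∣ a i * ν + b i) ∧
      ∀ p : ℕ, p.Prime → p ∣ W → ∀ j ∈ S, ¬ p ∣ a j * ν + b j := by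
  induction E using Finset.induction_on with
  | empty =>
    refine ⟨1, 0, le_rfl, by simp, ?_⟩
    intro p hp hp1
    exact absurd (Nat.dvd_one.1 hp1) hp.one_lt.ne'
  | insert i E hiE ih =>
    have hi : i ∉ S := fun h => (disjoint_left.1 hE) (mem_insert_self i E) h
    have hE' : Disjoint E S := disjoint_of_subset_left (subset_insert i E) hE
    obtain ⟨W, ν, hW, h1, h2⟩ := ih hE'
    -- a large prime
    obtain ⟨p, hp_large, hp⟩ := Nat.exists_infinite_primes
      (W + a i + (∑ j ∈ S, ((a i : ℤ) * b j - a j * b i).natAbs) + 1)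
    have hpW : ¬ p ∣ W := fun h => by
      have := Nat.le_of_dvd hW h
      omega
    have hpa : ¬ p ∣ a i := fun h => by
      have := Nat.le_of_dvd (ha i) h
      omega
    have hcop : Nat.Coprime W p := ((Nat.Prime.coprime_iff_not_dvd hp).2 hpW).symm
    have hcopa : Nat.Coprime (a i) p := ((Nat.Prime.coprime_iff_not_dvd hp).2 hpa).symm
    -- a solution modulo p
    obtain ⟨u, hu⟩ : ∃ u : ℕ, p ∣ a i * u + b i := by
      have hZ : ((a i : ℕ) : ZMod p) ≠ 0 := by
        intro h
        exact hpa ((ZMod.natCast_eq_zero_iff _ _).1 h)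
      have : Fact p.Prime := ⟨hp⟩
      refine ⟨(-(b i : ZMod p) / (a i : ZMod p)).val, ?_⟩
      rw [← ZMod.natCast_eq_zero_iff]
      push_cast
      rw [ZMod.natCast_zmod_val]
      field_simp
      ring
    obtain ⟨ν', hν1, hν2⟩ := Nat.chineseRemainder hcop ν u
    refine ⟨W * p, ν', Nat.mul_pos hW hp.pos, ?_, ?_⟩
    · intro j hj
      rcases mem_insert.1 hj with rfl | hj
      · refine ⟨p, hp, dvd_mul_left _ _, ?_⟩
        have h3 : a j * ν' + b j ≡ a j * u + b j [MOD p] := (hν2.mul_left (a j)).add_right (b j)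
        exact (h3.dvd_iff dvd_rfl).2 hu
      · obtain ⟨q, hq, hqW, hq2⟩ := h1 j hj
        refine ⟨q, hq, hqW.mul_right _, ?_⟩
        have h3 : a j * ν' + b j ≡ a j * ν + b j [MOD q] :=
          ((hν1.of_dvd hqW).mul_left (a j)).add_right (b j)
        exact (h3.dvd_iff dvd_rfl).2 hq2
    · intro q hq hqW j hj hqj
      rcases (Nat.Prime.dvd_mul hq).1 hqW with h3 | h3
      · have h4 : a j * ν' + b j ≡ a j * ν + b j [MOD q] :=
          ((hν1.of_dvd h3).mul_left (a j)).add_right (b j)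
        exact h2 q hq h3 j hj ((h4.dvd_iff dvd_rfl).1 hqj)
      · have h4 : q = p := (Nat.prime_dvd_prime_iff_eq hq hp).1 h3
        subst h4
        have h5 : q ∣ a i * ν' + b i := by
          have h6 : a i * ν' + b i ≡ a i * u + b i [MOD q] := (hν2.mul_left (a i)).add_right (b i)
          exact (h6.dvd_iff dvd_rfl).2 hu
        have h6 : (q : ℤ) ∣ (a i : ℤ) * b j - a j * b i := by
          have h7 : (q : ℤ) ∣ (a i : ℤ) * ((a j * ν' + b j : ℕ) : ℤ) :=
            Dvd.dvd.mul_left (by exact_mod_cast hqj) _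
          have h8 : (q : ℤ) ∣ (a j : ℤ) * ((a i * ν' + b i : ℕ) : ℤ) :=
            Dvd.dvd.mul_left (by exact_mod_cast h5) _
          have h9 := dvd_sub h7 h8
          push_cast at h9
          have e : (a i : ℤ) * (a j * ν' + b j) - a j * (a i * ν' + b i) =
              (a i : ℤ) * b j - a j * b i := by ring
          rwa [e] at h9
        have hij : i ≠ j := fun h => hi (h ▸ hj)
        have h10 : (a i : ℤ) * b j - a j * b i ≠ 0 := by
          intro h
          apply hne i j hij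
          have : (a i : ℤ) * b j = a j * b i := by linarith
          exact_mod_cast this
        have h11 : q ∣ ((a i : ℤ) * b j - a j * b i).natAbs := Int.natCast_dvd.1 h6
        have h12 := Nat.le_of_dvd (Int.natAbs_pos.2 h10) h11
        have h13 : ((a i : ℤ) * b j - a j * b i).natAbs ≤
            ∑ j ∈ S, ((a i : ℤ) * b j - a j * b i).natAbs :=
          single_le_sum (f := fun j => ((a i : ℤ) * b j - a j * b i).natAbs)
            (fun _ _ => Nat.zero_le _) hj
        omega

theorem rpow_shift (N ν W : ℝ) (hW1 : 1 ≤ W) (hν : 0 ≤ ν) (hN : 0 ≤ N) (η : ℝ) (hη : 0 < η) :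
    ∀ᶠ x : ℝ in atTop, N * x ^ (1 - η) ≤ ((x - ν) / W) ^ (1 - η / 2) := by
  have hWr : 0 < W := by linarith
  rcases le_or_gt (1 - η / 2) 0 with hneg | hpos
  · -- trivial case: exponents negative
    have h3 : ∀ᶠ x : ℝ in atTop, N * x ^ (1 - η) * x ^ (-(1 - η / 2)) ≤ 1 := by
      have h4 : Tendsto (fun x : ℝ => N * x ^ (-(η / 2))) atTop (nhds (N * 0)) :=
        (tendsto_rpow_neg_atTop (by positivity)).const_mul N
      rw [mul_zero] at h4
      filter_upwards [h4.eventually (gt_mem_nhds (show (0 : ℝ) < 1 by norm_num)),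
        eventually_gt_atTop (0 : ℝ)] with x hx hx0
      rw [mul_assoc, ← Real.rpow_add hx0]
      have e : 1 - η + -(1 - η / 2) = -(η / 2) := by ring
      rw [e]
      exact hx.le
    filter_upwards [h3, eventually_gt_atTop (ν : ℝ), eventually_gt_atTop (0 : ℝ)] with x hx hxν hx0
    have h5 : (x - ν) / W ≤ x := by
      rw [div_le_iff₀ hWr]
      nlinarith
    have h6 : 0 < (x - ν) / W := div_pos (by linarith) hWr
    have h7 : x ^ (1 - η / 2) ≤ ((x - ν) / W) ^ (1 - η / 2) :=
      Real.rpow_le_rpow_of_nonpos h6 h5 hneg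
    refine le_trans ?_ h7
    have h8 : 0 < x ^ (-(1 - η / 2)) := Real.rpow_pos_of_pos hx0 _
    have h9 : x ^ (1 - η / 2) * x ^ (-(1 - η / 2)) = 1 := by
      rw [← Real.rpow_add hx0]; simp
    exact le_of_mul_le_mul_right (hx.trans h9.ge) h8
  · have h4 : Tendsto (fun x : ℝ => x ^ (η / 2)) atTop atTop :=
      tendsto_rpow_atTop (by positivity)
    filter_upwards [h4.eventually_ge_atTop (N * (2 * W) ^ (1 - η / 2)),
      eventually_ge_atTop (2 * ν : ℝ), eventually_gt_atTop (0 : ℝ)] with x hx hxν hx0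
    have h5 : x / (2 * W) ≤ (x - ν) / W := by
      rw [div_le_div_iff₀ (by positivity) hWr]
      nlinarith
    have h6 : (x / (2 * W)) ^ (1 - η / 2) ≤ ((x - ν) / W) ^ (1 - η / 2) :=
      Real.rpow_le_rpow (by positivity) h5 hpos.le
    refine le_trans ?_ h6
    rw [Real.div_rpow hx0.le (by positivity), le_div_iff₀ (by positivity)]
    calc N * x ^ (1 - η) * (2 * W) ^ (1 - η / 2)
        = (N * (2 * W) ^ (1 - η / 2)) * x ^ (1 - η) := by ring
      _ ≤ x ^ (η / 2) * x ^ (1 - η) := mul_le_mul_of_nonneg_right hx (by positivity)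
      _ = x ^ (1 - η / 2) := by
        rw [← Real.rpow_add hx0]
        congr 1
        ring

/-- Let `S` be a set of `s` of the forms, `4 m + 29/50 ≤ log s`. For all large `x` some set `T ⊆ S`
with at least `m + 1` elements is the set of ALL forms of the family with prime values at `n`, for
at least `x ^ (1 - η)` numbers `n ≤ x`. -/
theorem trace_in (hyp : FormsHyp) {ι : Type*} [Fintype ι] [DecidableEq ι] (a b : ι → ℕ)
    (ha : ∀ i, 1 ≤ a i) (hne : ∀ i j, i ≠ j → a i * b j ≠ a j * b i)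
    (m : ℕ) (hm : 2 ≤ m) (S : Finset ι)
    (hloc : ∀ p : ℕ, p.Prime → ∃ n : ℕ, ∀ i ∈ S, ¬ p ∣ a i * n + b i)
    (hS : 4 * (m : ℝ) + 29 / 50 ≤ Real.log S.card)
    (η : ℝ) (hη : 0 < η) :
    ∀ᶠ x : ℝ in atTop, ∃ T : Finset ι, T ⊆ S ∧ m + 1 ≤ T.card ∧
      x ^ (1 - η) ≤ (Set.ncard {n : ℕ | 1 ≤ n ∧ (n : ℝ) ≤ x ∧ tr a b n = T} : ℝ) := by
  classical
  obtain ⟨W, ν₀, hW, h1, h2⟩ := congruences a b ha hne S (univ \ S) sdiff_disjoint
  set ν := ν₀ + W with hν
  have h1' : ∀ i ∉ S, ∃ p : ℕ, p.Prime ∧ p ∣ W ∧ p ∣ a i * ν + b i := by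
    intro i hi
    obtain ⟨p, hp, hpW, hp2⟩ := h1 i (mem_sdiff.2 ⟨mem_univ _, hi⟩)
    refine ⟨p, hp, hpW, ?_⟩
    rw [hν, mul_add, add_right_comm]
    exact dvd_add hp2 (hpW.mul_left _)
  have h2' : ∀ p : ℕ, p.Prime → p ∣ W → ∀ j ∈ S, ¬ p ∣ a j * ν + b j := by
    intro p hp hpW j hj hd
    apply h2 p hp hpW j hj
    rw [hν, mul_add, add_right_comm] at hd
    exact (Nat.dvd_add_left (hpW.mul_left (a j))).1 hd
  -- the new forms
  set e : Fin S.card ≃ S := S.equivFin.symm with he
  set A : Fin S.card → ℕ := fun i => a (e i) * W with hA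
  set B : Fin S.card → ℕ := fun i => a (e i) * ν + b (e i) with hB
  have hval : ∀ (i : Fin S.card) (t : ℕ), A i * t + B i = a (e i) * (W * t + ν) + b (e i) := by
    intro i t
    simp only [hA, hB]
    ring
  have hf := hyp m S.card hm hS A B (fun i => Nat.mul_pos (ha _) hW)
    (by
      intro i j hij h
      have hne' : ((e i : S) : ι) ≠ e j := fun h' => hij (e.injective (Subtype.ext h'))
      apply hne _ _ hne'
      simp only [hA, hB] at h
      have h3 : W * (a (e i) * b (e j)) = W * (a (e j) * b (e i)) := by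
        have h4 : a (e i) * W * (a (e j) * ν + b (e j)) =
          W * (a (e i) * b (e j)) + W * (a (e i) * a (e j) * ν) := by ring
        have h5 : a (e j) * W * (a (e i) * ν + b (e i)) =
          W * (a (e j) * b (e i)) + W * (a (e i) * a (e j) * ν) := by ring
        omega
      exact Nat.eq_of_mul_eq_mul_left hW h3)
    (by
      intro p hp
      by_cases hpW : p ∣ W
      · refine ⟨0, fun i => ?_⟩
        rw [hval]
        simp only [mul_zero, zero_add]
        exact h2' p hp hpW _ (e i).2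
      · obtain ⟨n, hn⟩ := hloc p hp
        have : Fact p.Prime := ⟨hp⟩
        have hWZ : (W : ZMod p) ≠ 0 := fun h => hpW ((ZMod.natCast_eq_zero_iff _ _).1 h)
        refine ⟨(((n : ZMod p) - ν) / (W : ZMod p)).val, fun i hd => ?_⟩
        rw [hval] at hd
        apply hn (e i) (e i).2
        rw [← ZMod.natCast_eq_zero_iff] at hd ⊢
        push_cast at hd ⊢
        rw [ZMod.natCast_zmod_val] at hd
        rw [← hd]
        field_simp
        ring)
    (η / 2) (by positivity)
  -- the change of variables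
  have hWr : (0 : ℝ) < W := by exact_mod_cast hW
  set N : ℝ := (Fintype.card (Finset ι) : ℝ) with hN
  have hNpos : 0 < N := by
    rw [hN]
    have : 0 < Fintype.card (Finset ι) := Fintype.card_pos
    exact_mod_cast this
  have ht : Tendsto (fun x : ℝ => (x - ν) / W) atTop atTop :=
    (tendsto_atTop_add_const_right _ _ tendsto_id).atTop_div_const hWr
  -- the asymptotic inequality
  have hasy := rpow_shift N ν W (by exact_mod_cast hW) (Nat.cast_nonneg _) hNpos.le η hη
  filter_upwards [ht.eventually hf, hasy, eventually_gt_atTop (0 : ℝ)] with x hx hx2 hx0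
  -- pigeonhole
  set G : Set ℕ := {t : ℕ | 1 ≤ t ∧ (t : ℝ) ≤ (x - ν) / W ∧
      m + 1 ≤ Set.ncard {i : Fin S.card | (A i * t + B i).Prime}} with hG
  have hGfin : G.Finite := by
    apply (Set.finite_Iic ⌊(x - ν) / W⌋₊).subset
    intro t ht
    exact Nat.le_floor ht.2.1
  have hval' : ∀ t ∈ G, tr a b (W * t + ν) ⊆ S ∧ m + 1 ≤ (tr a b (W * t + ν)).card ∧
      1 ≤ W * t + ν ∧ ((W * t + ν : ℕ) : ℝ) ≤ x := by
    intro t ht
    obtain ⟨ht1, ht2, ht3⟩ := ht
    have hsub : tr a b (W * t + ν) ⊆ S := by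
      intro i hi
      by_contra hiS
      rw [mem_tr] at hi
      obtain ⟨p, hp, hpW, hpd⟩ := h1' i hiS
      have h3 : p ∣ a i * (W * t + ν) + b i := by
        have : a i * (W * t + ν) + b i = W * (a i * t) + (a i * ν + b i) := by ring
        rw [this]
        exact dvd_add (hpW.mul_right _) hpd
      have h4 : p = a i * (W * t + ν) + b i := (Nat.prime_dvd_prime_iff_eq hp hi).1 h3
      have h5 : p ≤ W := Nat.le_of_dvd hW hpW
      have h6 : W + W ≤ W * t + ν := by
        have : W * 1 ≤ W * t := Nat.mul_le_mul_left _ ht1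
        omega
      have h7 : 1 * (W * t + ν) ≤ a i * (W * t + ν) := Nat.mul_le_mul_right _ (ha i)
      omega
    refine ⟨hsub, ?_, ?_, ?_⟩
    · refine ht3.trans ?_
      rw [← Set.ncard_coe_finset (tr a b (W * t + ν))]
      apply Set.ncard_le_ncard_of_injOn (fun i : Fin S.card => ((e i : S) : ι))
      · intro i hi
        have hi' : (A i * t + B i).Prime := hi
        rw [hval] at hi'
        exact (mem_tr a b _ _).2 hi'
      · intro i _ j _ hij
        exact e.injective (Subtype.ext hij)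
    · have : 1 ≤ W := hW
      omega
    · rw [le_div_iff₀ hWr] at ht2
      push_cast
      linarith
  set Gf : Finset ℕ := hGfin.toFinset with hGf
  have hGcard : ((x - ν) / W) ^ (1 - η / 2) ≤ (Gf.card : ℝ) := by
    rw [hGf, ← Set.ncard_eq_toFinset_card G hGfin]
    exact hx
  obtain ⟨T, hT, hT2⟩ : ∃ T ∈ (univ : Finset (Finset ι)), (Gf.card : ℝ) / N ≤
      ((Gf.filter (fun t => tr a b (W * t + ν) = T)).card : ℝ) := by
    by_contra hcon
    push Not at hcon
    have h3 : (Gf.card : ℝ) = ∑ T ∈ (univ : Finset (Finset ι)),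
        ((Gf.filter (fun t => tr a b (W * t + ν) = T)).card : ℝ) := by
      rw [← Nat.cast_sum]
      congr 1
      exact card_eq_sum_card_fiberwise (fun t _ => mem_univ _)
    have h4 : ∑ T ∈ (univ : Finset (Finset ι)),
        ((Gf.filter (fun t => tr a b (W * t + ν) = T)).card : ℝ) <
        ∑ T ∈ (univ : Finset (Finset ι)), (Gf.card : ℝ) / N :=
      sum_lt_sum_of_nonempty univ_nonempty hcon
    rw [sum_const, card_univ, nsmul_eq_mul, ← hN, mul_div_cancel₀ _ hNpos.ne'] at h4
    linarith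
  have hT3 : x ^ (1 - η) ≤ ((Gf.filter (fun t => tr a b (W * t + ν) = T)).card : ℝ) := by
    refine le_trans ?_ hT2
    rw [le_div_iff₀ hNpos]
    linarith
  -- T is the trace of some element
  have hne2 : (Gf.filter (fun t => tr a b (W * t + ν) = T)).Nonempty := by
    rw [← card_pos]
    have h3 : (0 : ℝ) < x ^ (1 - η) := Real.rpow_pos_of_pos hx0 _
    exact_mod_cast h3.trans_le hT3
  obtain ⟨t, ht⟩ := hne2
  obtain ⟨ht1, ht2⟩ := mem_filter.1 ht
  have ht3 : t ∈ G := by
    rw [hGf, Set.Finite.mem_toFinset] at ht1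
    exact ht1
  obtain ⟨h3, h4, -, -⟩ := hval' t ht3
  refine ⟨T, ht2 ▸ h3, ht2 ▸ h4, hT3.trans ?_⟩
  have hfin2 : {n : ℕ | 1 ≤ n ∧ (n : ℝ) ≤ x ∧ tr a b n = T}.Finite := by
    apply (Set.finite_Iic ⌊x⌋₊).subset
    intro n hn
    exact Nat.le_floor hn.2.1
  have hfinal : (Gf.filter (fun t => tr a b (W * t + ν) = T)).card ≤
      Set.ncard {n : ℕ | 1 ≤ n ∧ (n : ℝ) ≤ x ∧ tr a b n = T} := by
    rw [← Set.ncard_coe_finset]
    refine Set.ncard_le_ncard_of_injOn (fun t => W * t + ν) ?_ ?_ hfin2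
    · intro t ht
      obtain ⟨ht1, ht2⟩ := mem_filter.1 (mem_coe.1 ht)
      have ht3 : t ∈ G := by
        rw [hGf, Set.Finite.mem_toFinset] at ht1
        exact ht1
      obtain ⟨-, -, h5, h6⟩ := hval' t ht3
      exact ⟨h5, h6, ht2⟩
    · intro t _ t' _ h
      have h5 : W * t = W * t' := by
        have : W * t + ν = W * t' + ν := h
        omega
      exact Nat.eq_of_mul_eq_mul_left hW h5
  exact_mod_cast hfinal

end Pool.Agent.TH779.Shat
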