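import Mathlib
import Pool.Agent.TH779.Shat.Trace

/-! Many exact prime patterns, and shattered subfamilies. -/

set_option autoImplicit false

namespace Pool.Agent.TH779.Shat

open Finset Filter

theorem numbers (ε : ℝ) (hε : 0 < ε) : ∃ K₀ : ℕ, ∀ K : ℕ, K₀ ≤ K →
    ∃ s m : ℕ, s ≤ K ∧ 2 ≤ m ∧ 1 ≤ s ∧ 4 * (m : ℝ) + 29 / 50 ≤ Real.log s ∧
      (1 / 16 - ε) * Real.log K ^ 2 ≤ (m + 1) * (Real.log K - Real.log s) := by
  have h1 : Tendsto (fun K : ℕ => Real.log K) atTop atTop :=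
    Real.tendsto_log_atTop.comp tendsto_natCast_atTop_atTop
  obtain ⟨K₁, hK₁⟩ := (h1.eventually_ge_atTop (max (5 / (8 * ε)) 40)).exists_forall_of_atTop
  refine ⟨max K₁ 4, fun K hK => ?_⟩
  have hL := hK₁ K ((le_max_left _ _).trans hK)
  set L := Real.log K with hLdef
  have hL1 : 5 / (8 * ε) ≤ L := (le_max_left _ _).trans hL
  have hL2 : 40 ≤ L := (le_max_right _ _).trans hL
  have hK4 : 4 ≤ K := (le_max_right _ _).trans hK
  have hKr : (4 : ℝ) ≤ K := by exact_mod_cast hK4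
  have hKpos : (0 : ℝ) < K := by linarith
  have hsq : 2 ≤ Real.sqrt K := by
    rw [show (2 : ℝ) = Real.sqrt 4 by
      rw [show (4 : ℝ) = 2 ^ 2 by norm_num, Real.sqrt_sq (by norm_num)]]
    exact Real.sqrt_le_sqrt hKr
  set s := ⌈Real.sqrt K⌉₊ with hs
  have hs1 : Real.sqrt K ≤ s := Nat.le_ceil _
  have hs2 : (s : ℝ) < Real.sqrt K + 1 := Nat.ceil_lt_add_one (Real.sqrt_nonneg _)
  have hs3 : (s : ℝ) ≤ 2 * Real.sqrt K := by linarith
  have hspos : (0 : ℝ) < s := by linarith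
  have hlogsq : Real.log (Real.sqrt K) = L / 2 := Real.log_sqrt hKpos.le
  have hls1 : L / 2 ≤ Real.log s := by
    rw [← hlogsq]
    exact Real.log_le_log (by linarith) hs1
  have hls2 : Real.log s ≤ L / 2 + 1 := by
    have h2 : Real.log s ≤ Real.log (2 * Real.sqrt K) := Real.log_le_log hspos hs3
    rw [Real.log_mul (by norm_num) (by linarith), hlogsq] at h2
    have h3 : Real.log 2 ≤ 1 := by
      have := Real.log_two_lt_d9
      linarith
    linarith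
  have hsK : s ≤ K := by
    have h2 : (s : ℝ) ≤ K := by
      have h3 : Real.sqrt K * Real.sqrt K = K := Real.mul_self_sqrt hKpos.le
      nlinarith
    exact_mod_cast h2
  have hx : 2 ≤ (Real.log s - 29 / 50) / 4 := by linarith
  set m := ⌊(Real.log s - 29 / 50) / 4⌋₊ with hm
  have hm1 : (m : ℝ) ≤ (Real.log s - 29 / 50) / 4 := Nat.floor_le (by linarith)
  have hm2 : (Real.log s - 29 / 50) / 4 < m + 1 := Nat.lt_floor_add_one _
  refine ⟨s, m, hsK, ?_, ?_, by linarith, ?_⟩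
  · rw [hm]
    exact Nat.le_floor (by exact_mod_cast hx)
  · have : (0 : ℝ) < s := hspos
    exact_mod_cast this
  · have h2 : L / 8 - 1 ≤ (m : ℝ) + 1 := by linarith
    have h3 : L / 2 - 1 ≤ L - Real.log s := by linarith
    have h4 : (L / 8 - 1) * (L / 2 - 1) ≤ ((m : ℝ) + 1) * (L - Real.log s) :=
      mul_le_mul h2 h3 (by linarith) (by positivity)
    have h5 : 5 / 8 ≤ ε * L := by
      rw [div_le_iff₀ (by positivity)] at hL1
      linarith
    refine le_trans ?_ h4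
    nlinarith [mul_le_mul_of_nonneg_right h5 (show (0 : ℝ) ≤ L by linarith)]

/-- For all large `x` there are at least `exp ((1/16 - ε) log² K)` sets `T` of indices such that,
for at least `x ^ (1 - η)` numbers `n ≤ x`, exactly the forms with index in `T` have prime
values at `n`. -/
theorem many_traces (hyp : FormsHyp) (ε : ℝ) (hε : 0 < ε) : ∃ K₀ : ℕ, ∀ K : ℕ, K₀ ≤ K →
    ∀ (a b : Fin K → ℕ), (∀ i, 1 ≤ a i) → (∀ i j, i ≠ j → a i * b j ≠ a j * b i) →
    (∀ p : ℕ, p.Prime → ∃ n : ℕ, ∀ i, ¬ p ∣ a i * n + b i) → ∀ η : ℝ, 0 < η →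
    ∀ᶠ x : ℝ in atTop, ∃ F : Finset (Finset (Fin K)),
      Real.exp ((1 / 16 - ε) * Real.log K ^ 2) ≤ F.card ∧
      ∀ T ∈ F, x ^ (1 - η) ≤ (Set.ncard {n : ℕ | 1 ≤ n ∧ (n : ℝ) ≤ x ∧ tr a b n = T} : ℝ) := by
  classical
  obtain ⟨K₀, hK₀⟩ := numbers ε hε
  refine ⟨K₀, fun K hK a b ha hne hloc η hη => ?_⟩
  obtain ⟨s, m, hsK, hm, hs1, hlog, hfin⟩ := hK₀ K hK
  have h1 : ∀ S : Finset (Fin K), ∀ᶠ x : ℝ in atTop, S.card = s → ∃ T : Finset (Fin K), T ⊆ S ∧
      m + 1 ≤ T.card ∧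
      x ^ (1 - η) ≤ (Set.ncard {n : ℕ | 1 ≤ n ∧ (n : ℝ) ≤ x ∧ tr a b n = T} : ℝ) := by
    intro S
    by_cases hS : S.card = s
    · filter_upwards [trace_in hyp a b ha hne m hm S
        (fun p hp => (hloc p hp).imp (fun n hn i _ => hn i)) (by rw [hS]; exact hlog) η hη]
        with x hx _
      exact hx
    · exact Eventually.of_forall (fun x h => absurd h hS)
  filter_upwards [eventually_all.2 h1] with x hx
  set F : Finset (Finset (Fin K)) := univ.filter (fun T => x ^ (1 - η) ≤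
    (Set.ncard {n : ℕ | 1 ≤ n ∧ (n : ℝ) ≤ x ∧ tr a b n = T} : ℝ)) with hF
  refine ⟨F, ?_, fun T hT => (mem_filter.1 hT).2⟩
  have h2 := hitting F s (m + 1) (by rw [Fintype.card_fin]; exact hsK) (by
    intro S hS
    obtain ⟨T, hT1, hT2, hT3⟩ := hx S hS
    exact ⟨T, mem_filter.2 ⟨mem_univ _, hT3⟩, hT1, hT2⟩)
  rw [Fintype.card_fin, mul_one] at h2
  have hKpos : (0 : ℝ) < K := by exact_mod_cast (hs1.trans hsK)
  have hspos : (0 : ℝ) < s := by exact_mod_cast hs1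
  have h3 : (K : ℝ) ^ (m + 1) ≤ (s : ℝ) ^ (m + 1) * F.card := by exact_mod_cast h2
  have hFpos : (0 : ℝ) < F.card := by
    by_contra hcon
    have h4 : (F.card : ℝ) = 0 := le_antisymm (not_lt.1 hcon) (Nat.cast_nonneg _)
    rw [h4, mul_zero] at h3
    have : (0 : ℝ) < (K : ℝ) ^ (m + 1) := by positivity
    linarith
  have h4 : ((m : ℝ) + 1) * (Real.log K - Real.log s) ≤ Real.log F.card := by
    have h5 := Real.log_le_log (by positivity) h3
    rw [Real.log_mul (by positivity) hFpos.ne', Real.log_pow, Real.log_pow] at h5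
    push_cast at h5
    linarith
  calc Real.exp ((1 / 16 - ε) * Real.log K ^ 2) ≤ Real.exp (Real.log F.card) :=
        Real.exp_le_exp.2 (hfin.trans h4)
    _ = F.card := Real.exp_log hFpos

/-- the lower bound for the size of a shattered set -/
theorem size_bound (ε : ℝ) (hε : 0 < ε) : ∃ K₀ : ℕ, ∀ K : ℕ, K₀ ≤ K → ∀ N d : ℕ,
    Real.exp ((1 / 16 - ε / 2) * Real.log K ^ 2) ≤ N → N ≤ (K + 1) ^ d →
    (1 / 16 - ε) * Real.log K ≤ d := by
  have h1 : Tendsto (fun K : ℕ => Real.log K) atTop atTop :=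
    Real.tendsto_log_atTop.comp tendsto_natCast_atTop_atTop
  obtain ⟨K₁, hK₁⟩ := (h1.eventually_ge_atTop (max (1 / ε) 1)).exists_forall_of_atTop
  refine ⟨max K₁ 1, fun K hK N d h2 h3 => ?_⟩
  have hL := hK₁ K ((le_max_left _ _).trans hK)
  set L := Real.log K with hLdef
  have hL1 : 1 / ε ≤ L := (le_max_left _ _).trans hL
  have hL2 : 1 ≤ L := (le_max_right _ _).trans hL
  have hK1 : 1 ≤ K := (le_max_right _ _).trans hK
  have hKr : (1 : ℝ) ≤ K := by exact_mod_cast hK1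
  rcases le_or_gt (1 / 16 - ε) 0 with h4 | h4
  · have h5 : (1 / 16 - ε) * L ≤ 0 := mul_nonpos_of_nonpos_of_nonneg h4 (by linarith)
    exact h5.trans (Nat.cast_nonneg _)
  · have h5 : Real.log ((K : ℝ) + 1) ≤ L + 1 := by
      have h6 : Real.log ((K : ℝ) + 1) ≤ Real.log (2 * K) :=
        Real.log_le_log (by linarith) (by linarith)
      rw [Real.log_mul (by norm_num) (by linarith)] at h6
      have h7 := Real.log_two_lt_d9
      linarith
    have h6 : (1 / 16 - ε / 2) * L ^ 2 ≤ d * (L + 1) := by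
      have h7 : Real.exp ((1 / 16 - ε / 2) * L ^ 2) ≤ ((K : ℝ) + 1) ^ d := by
        refine h2.trans ?_
        exact_mod_cast h3
      have h8 := Real.log_le_log (Real.exp_pos _) h7
      rw [Real.log_exp, Real.log_pow] at h8
      exact h8.trans (mul_le_mul_of_nonneg_left h5 (Nat.cast_nonneg _))
    have h7 : 1 ≤ ε * L := by
      rw [div_le_iff₀ hε] at hL1
      linarith
    by_contra hcon
    push Not at hcon
    have h8 : (d : ℝ) * (L + 1) < (1 / 16 - ε) * L * (L + 1) :=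
      mul_lt_mul_of_pos_right hcon (by linarith)
    nlinarith [mul_le_mul_of_nonneg_right h7 (show (0 : ℝ) ≤ L by linarith)]

/-- shattered sets -/
theorem many_shattered (hyp : FormsHyp) (ε : ℝ) (hε : 0 < ε) : ∃ K₀ : ℕ, ∀ K : ℕ, K₀ ≤ K →
    ∀ (a b : Fin K → ℕ), (∀ i, 1 ≤ a i) → (∀ i j, i ≠ j → a i * b j ≠ a j * b i) →
    (∀ p : ℕ, p.Prime → ∃ n : ℕ, ∀ i, ¬ p ∣ a i * n + b i) → ∀ η : ℝ, 0 < η →
    ∀ᶠ x : ℝ in atTop, ∃ G : Finset (Finset (Fin K)),
      Real.exp ((1 / 16 - ε) * Real.log K ^ 2) ≤ G.card ∧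
      (∃ B ∈ G, (1 / 16 - ε) * Real.log K ≤ B.card) ∧
      ∀ B ∈ G, ∀ C ⊆ B, x ^ (1 - η) ≤ (Set.ncard {n : ℕ | 1 ≤ n ∧ (n : ℝ) ≤ x ∧
        ∀ i ∈ B, ((a i * n + b i).Prime ↔ i ∈ C)} : ℝ) := by
  classical
  obtain ⟨K₁, hK₁⟩ := many_traces hyp (ε / 2) (by positivity)
  obtain ⟨K₂, hK₂⟩ := size_bound ε hε
  refine ⟨max (max K₁ K₂) 1, fun K hK a b ha hne hloc η hη => ?_⟩
  have hK1 : 1 ≤ K := (le_max_right _ _).trans hK
  filter_upwards [hK₁ K ((le_max_left _ _).trans ((le_max_left _ _).trans hK)) a b ha hne hloc η hη]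
    with x hx
  obtain ⟨F, hF1, hF2⟩ := hx
  have hFne : F.Nonempty := by
    rw [← card_pos]
    have := (Real.exp_pos _).trans_le hF1
    exact_mod_cast this
  refine ⟨F.shatterer, ?_, ?_, ?_⟩
  · have h1 : (F.card : ℝ) ≤ F.shatterer.card := by exact_mod_cast card_le_card_shatterer F
    refine le_trans ?_ (hF1.trans h1)
    apply Real.exp_le_exp.2
    apply mul_le_mul_of_nonneg_right (by linarith) (by positivity)
  · obtain ⟨B, hB1, hB2⟩ := exists_shattered F hFne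
    refine ⟨B, mem_shatterer.2 hB1, ?_⟩
    rw [Fintype.card_fin] at hB2
    exact hK₂ K ((le_max_right _ _).trans ((le_max_left _ _).trans hK)) F.card B.card hF1 hB2
  · intro B hB C hC
    obtain ⟨T, hT, hTB⟩ := (mem_shatterer.1 hB) hC
    refine (hF2 T hT).trans ?_
    have hfin : {n : ℕ | 1 ≤ n ∧ (n : ℝ) ≤ x ∧
        ∀ i ∈ B, ((a i * n + b i).Prime ↔ i ∈ C)}.Finite := by
      apply (Set.finite_Iic ⌊x⌋₊).subset
      intro n hn
      exact Nat.le_floor hn.2.1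
    have h1 : Set.ncard {n : ℕ | 1 ≤ n ∧ (n : ℝ) ≤ x ∧ tr a b n = T} ≤
        Set.ncard {n : ℕ | 1 ≤ n ∧ (n : ℝ) ≤ x ∧
          ∀ i ∈ B, ((a i * n + b i).Prime ↔ i ∈ C)} := by
      apply Set.ncard_le_ncard _ hfin
      rintro n ⟨hn1, hn2, hn3⟩
      refine ⟨hn1, hn2, fun i hi => ?_⟩
      rw [← mem_tr a b n i, hn3, ← hTB, mem_inter]
      exact ⟨fun h => ⟨hi, h⟩, fun h => h.2⟩
    exact_mod_cast h1

/-- from some object for all large `x` to one object for arbitrarily large `x` and all `η` -/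
theorem one_object {P : Type*} [Fintype P] (Q : P → ℝ → ℝ → Prop)
    (hmono : ∀ p η η' x, 1 ≤ x → η ≤ η' → Q p η x → Q p η' x)
    (h : ∀ η : ℝ, 0 < η → ∀ᶠ x : ℝ in atTop, ∃ p, Q p η x) :
    ∃ p, ∀ η : ℝ, 0 < η → ∃ᶠ x : ℝ in atTop, Q p η x := by
  classical
  by_contra hcon
  push Not at hcon
  choose η hη hη2 using hcon
  have hne : Nonempty P := by
    obtain ⟨x, p, _⟩ := (h 1 one_pos).exists
    exact ⟨p⟩
  obtain ⟨p₀, -, hp₀⟩ := exists_min_image (univ : Finset P) η univ_nonempty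
  have h1 := h (η p₀) (hη p₀)
  have h2 : ∀ᶠ x : ℝ in atTop, ∀ p, ¬ Q p (η p) x := eventually_all.2 hη2
  obtain ⟨x, ⟨⟨p, hp⟩, hx2⟩, hx3⟩ := ((h1.and h2).and (eventually_ge_atTop (1 : ℝ))).exists
  exact hx2 p (hmono p (η p₀) (η p) x hx3 (hp₀ p (mem_univ _)) hp)

end Pool.Agent.TH779.Shat
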