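import Mathlib
import Pool.Agent.TH779.Shat.Main
import Pool.Agent.TH779.Shat.Cheb

/-! Many patterns of consecutive primes. -/

set_option autoImplicit false

namespace Pool.Agent.TH779.Shat

open Finset Filter

/-- the numbers `n + q h`, `h ∈ P`, are consecutive primes -/
def Realises (q : ℕ) (P : Finset ℕ) (n : ℕ) : Prop :=
  (∀ h ∈ P, (n + q * h).Prime) ∧
    ∀ y : ℕ, (n + y).Prime → (∃ h ∈ P, y ≤ q * h) → ∃ h ∈ P, y = q * h

/-- the number of `n ≤ x`, `n ≡ a (mod q)`, such that the `n + q h` are consecutive primes -/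
noncomputable def cnt (q a : ℕ) (P : Finset ℕ) (x : ℝ) : ℕ :=
  Set.ncard {n : ℕ | (n : ℝ) ≤ x ∧ n ≡ a [MOD q] ∧ Realises q P n}

/-- translate to `0` -/
noncomputable def norm (R : Finset ℕ) : Finset ℕ := R.image (fun h => h - sInf (R : Set ℕ))

theorem sInf_mem_of {R : Finset ℕ} (h : R.Nonempty) : sInf (R : Set ℕ) ∈ R := by
  have := Nat.sInf_mem (s := (R : Set ℕ)) h
  exact_mod_cast this

theorem sInf_le_of {R : Finset ℕ} {x : ℕ} (h : x ∈ R) : sInf (R : Set ℕ) ≤ x :=
  Nat.sInf_le (mem_coe.2 h)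

theorem zero_mem_norm {R : Finset ℕ} (h : R.Nonempty) : 0 ∈ norm R := by
  unfold norm
  rw [mem_image]
  exact ⟨_, sInf_mem_of h, Nat.sub_self _⟩

theorem card_norm (R : Finset ℕ) : (norm R).card = R.card := by
  unfold norm
  apply card_image_of_injOn
  intro x hx y hy h
  have h1 := sInf_le_of (mem_coe.1 hx)
  have h2 := sInf_le_of (mem_coe.1 hy)
  simp only at h
  omega

theorem norm_inj {R R' : Finset ℕ} (h : norm R = norm R')
    (h0 : sInf (R : Set ℕ) = sInf (R' : Set ℕ)) : R = R' := by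
  have key : ∀ A B : Finset ℕ, norm A = norm B → sInf (A : Set ℕ) = sInf (B : Set ℕ) → A ⊆ B := by
    intro A B hAB hs x hx
    have h1 : x - sInf (A : Set ℕ) ∈ norm A := mem_image.2 ⟨x, hx, rfl⟩
    rw [hAB] at h1
    obtain ⟨y, hy, hxy⟩ := mem_image.1 h1
    have h2 := sInf_le_of hx
    have h3 := sInf_le_of hy
    have h4 : y = x := by
      rw [hs] at hxy h2
      omega
    rwa [h4] at hy
  exact Subset.antisymm (key _ _ h h0) (key _ _ h.symm h0.symm)

theorem initial (T : Finset ℕ) (k : ℕ) (hk : k ≤ T.card) :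
    ∃ R ⊆ T, R.card = k ∧ ∀ x ∈ R, ∀ y ∈ T, y ≤ x → y ∈ R := by
  induction k with
  | zero => exact ⟨∅, empty_subset _, card_empty, by simp⟩
  | succ k ih =>
    obtain ⟨R, hR1, hR2, hR3⟩ := ih (by omega)
    have hne : (T \ R).Nonempty := by
      rw [← card_pos, card_sdiff_of_subset hR1]
      omega
    have hm := sInf_mem_of hne
    rw [Finset.mem_sdiff] at hm
    refine ⟨insert (sInf ((T \ R : Finset ℕ) : Set ℕ)) R, ?_, ?_, ?_⟩
    · intro x hx
      rcases mem_insert.1 hx with rfl | hx
      · exact hm.1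
      · exact hR1 hx
    · rw [card_insert_of_notMem hm.2, hR2]
    · intro x hx y hy hyx
      rw [mem_insert]
      by_cases hyR : y ∈ R
      · exact Or.inr hyR
      · left
        have h1 := sInf_le_of (Finset.mem_sdiff.2 ⟨hy, hyR⟩)
        rcases mem_insert.1 hx with rfl | hx
        · omega
        · exact absurd (hR3 x hx y hy hyx) hyR

/-- the hitting lemma inside a finite set -/
theorem hitting_in (H : Finset ℕ) (F : Finset (Finset ℕ)) (s r : ℕ) (hs : s ≤ H.card)
    (hF : ∀ S ⊆ H, S.card = s → ∃ T ∈ F, T ⊆ S ∧ r ≤ T.card) :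
    H.card ^ r ≤ s ^ r * F.card := by
  classical
  set F' : Finset (Finset H) := F.image (fun R => R.subtype (· ∈ H)) with hF'
  have h := hitting F' s r (by rw [Fintype.card_coe]; exact hs) (by
    intro S hS
    obtain ⟨T, hT, hTS, hTr⟩ := hF (S.map (Function.Embedding.subtype _)) (by
      intro x hx
      rw [Finset.mem_map] at hx
      obtain ⟨y, -, rfl⟩ := hx
      exact y.2) (by rw [card_map]; exact hS)
    refine ⟨T.subtype (· ∈ H), mem_image_of_mem _ hT, ?_, ?_⟩
    · intro x hx
      rw [mem_subtype] at hx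
      have := hTS hx
      rw [Finset.mem_map] at this
      obtain ⟨y, hy, hyx⟩ := this
      have : y = x := Subtype.ext hyx
      rwa [this] at hy
    · rw [card_subtype]
      refine hTr.trans (card_le_card ?_)
      intro x hx
      rw [mem_filter]
      refine ⟨hx, ?_⟩
      have := hTS hx
      rw [Finset.mem_map] at this
      obtain ⟨y, -, rfl⟩ := this
      exact y.2)
  rw [Fintype.card_coe, mul_one] at h
  exact h.trans (Nat.mul_le_mul_left _ card_image_le)

/-- one pattern of consecutive primes inside every set of `s` shifts -/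
theorem one_pattern (hyp : FormsHyp) (q a D : ℕ) (hq : 1 ≤ q) (haq : Nat.Coprime a q)
    (k : ℕ) (hk : 2 ≤ k) (S : Finset ℕ) (hSD : ∀ h ∈ S, h ≤ D)
    (hadm : ∀ p : ℕ, p.Prime → ∃ r : ℕ, ∀ h ∈ S, ¬ p ∣ r + h)
    (hS : 4 * (k : ℝ) + 29 / 50 ≤ Real.log S.card) (η : ℝ) (hη : 0 < η) :
    ∀ᶠ x : ℝ in atTop, ∃ R : Finset ℕ, R ⊆ S ∧ R.card = k ∧ x ^ (1 - η) ≤ cnt q a (norm R) x := by
  classical
  set S' : Finset (Fin (q * D + 1)) := univ.filter (fun j => ∃ h ∈ S, q * h = (j : ℕ)) with hS'
  have hcard : S'.card = S.card := by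
    symm
    apply card_bij (fun h hh => (⟨q * h, by
      have := Nat.mul_le_mul_left q (hSD h hh)
      omega⟩ : Fin (q * D + 1)))
    · intro h hh
      rw [hS', mem_filter]
      exact ⟨mem_univ _, h, hh, rfl⟩
    · intro h _ h' _ e
      simp only [Fin.mk.injEq] at e
      exact Nat.eq_of_mul_eq_mul_left hq e
    · intro j hj
      rw [hS', mem_filter] at hj
      obtain ⟨-, h, hh, he⟩ := hj
      exact ⟨h, hh, Fin.ext he⟩
  have ht := trace_in hyp (fun _ : Fin (q * D + 1) => q) (fun j => a + j) (fun _ => hq)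
    (by
      intro i j hij h
      have h1 := Nat.eq_of_mul_eq_mul_left hq h
      exact hij (Fin.ext (by omega)))
    k hk S'
    (by
      intro p hp
      by_cases hpq : p ∣ q
      · refine ⟨0, fun j hj hd => ?_⟩
        rw [hS', mem_filter] at hj
        obtain ⟨-, h, hh, he⟩ := hj
        rw [mul_zero, zero_add, ← he] at hd
        have h1 : p ∣ a := (Nat.dvd_add_left (hpq.mul_right h)).1 hd
        have h2 : p ∣ 1 := by
          rw [← haq]
          exact Nat.dvd_gcd h1 hpq
        exact hp.one_lt.ne' (Nat.dvd_one.1 h2)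
      · obtain ⟨r, hr⟩ := hadm p hp
        have : Fact p.Prime := ⟨hp⟩
        have hqZ : (q : ZMod p) ≠ 0 := fun h => hpq ((ZMod.natCast_eq_zero_iff _ _).1 h)
        refine ⟨((r : ZMod p) - a / q).val, fun j hj hd => ?_⟩
        rw [hS', mem_filter] at hj
        obtain ⟨-, h, hh, he⟩ := hj
        rw [← he, ← ZMod.natCast_eq_zero_iff] at hd
        push_cast at hd
        rw [ZMod.natCast_zmod_val] at hd
        apply hr h hh
        rw [← ZMod.natCast_eq_zero_iff]
        push_cast
        have h1 : (q : ZMod p) * ((r : ZMod p) + h) = 0 := by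
          rw [← hd]
          field_simp
          ring
        exact (mul_eq_zero.1 h1).resolve_left hqZ)
    (by rw [hcard]; exact hS) (η / 2) (by positivity)
  have hq0 : (0 : ℝ) < q := by exact_mod_cast hq
  have htend : Tendsto (fun x : ℝ => (x - (a + q * D : ℕ)) / q) atTop atTop :=
    (tendsto_atTop_add_const_right _ _ tendsto_id).atTop_div_const hq0
  filter_upwards [htend.eventually ht, rpow_shift 1 ((a + q * D : ℕ) : ℝ) q
    (by exact_mod_cast hq) (Nat.cast_nonneg _) zero_le_one η hη] with x hx hx2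
  obtain ⟨T, hTS, hTk, hT⟩ := hx
  rw [one_mul] at hx2
  set T₀ : Finset ℕ := S.filter (fun h => ∃ j ∈ T, (j : ℕ) = q * h) with hT₀
  have hT₀card : T.card ≤ T₀.card := by
    apply card_le_card_of_injOn (fun j : Fin (q * D + 1) => (j : ℕ) / q)
    · intro j hj
      have hj' := hTS (mem_coe.1 hj)
      rw [hS', mem_filter] at hj'
      obtain ⟨-, h, hh, he⟩ := hj'
      have h1 : (j : ℕ) / q = h := by
        rw [← he]
        exact Nat.mul_div_cancel_left h hq
      simp only
      rw [h1, mem_coe, hT₀, mem_filter]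
      exact ⟨hh, j, mem_coe.1 hj, he.symm⟩
    · intro i hi j hj hij
      have hi' := hTS (mem_coe.1 hi)
      have hj' := hTS (mem_coe.1 hj)
      rw [hS', mem_filter] at hi' hj'
      obtain ⟨-, h, hh, he⟩ := hi'
      obtain ⟨-, h', hh', he'⟩ := hj'
      simp only at hij
      rw [← he, ← he', Nat.mul_div_cancel_left h hq, Nat.mul_div_cancel_left h' hq] at hij
      apply Fin.ext
      rw [← he, ← he', hij]
  obtain ⟨R, hR1, hR2, hR3⟩ := initial T₀ k (by omega)
  have hRne : R.Nonempty := by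
    rw [← card_pos]
    omega
  refine ⟨R, hR1.trans (filter_subset _ _), hR2, hx2.trans (hT.trans ?_)⟩
  set h₀ := sInf (R : Set ℕ) with hh₀
  have hh₀R : h₀ ∈ R := sInf_mem_of hRne
  have hh₀D : h₀ ≤ D := hSD _ ((mem_filter.1 (hR1 hh₀R)).1)
  have hfin : {n : ℕ | (n : ℝ) ≤ x ∧ n ≡ a [MOD q] ∧ Realises q (norm R) n}.Finite := by
    apply (Set.finite_Iic ⌊x⌋₊).subset
    intro n hn
    exact Nat.le_floor hn.1
  have hmain : Set.ncard {t : ℕ | 1 ≤ t ∧ (t : ℝ) ≤ (x - (a + q * D : ℕ)) / q ∧
      tr (fun _ : Fin (q * D + 1) => q) (fun j => a + j) t = T} ≤ cnt q a (norm R) x := by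
    unfold cnt
    apply Set.ncard_le_ncard_of_injOn (fun t => q * t + a + q * h₀) _ _ hfin
    · rintro t ⟨-, ht2, ht3⟩
      -- primes in the window
      have hwin : ∀ j : ℕ, j ≤ q * D → ((q * t + (a + j)).Prime ↔ ∃ h ∈ T₀, j = q * h) := by
        intro j hj
        have h1 := mem_tr (fun _ : Fin (q * D + 1) => q) (fun j => a + j) t ⟨j, by omega⟩
        rw [ht3] at h1
        simp only at h1
        rw [← h1]
        constructor
        · intro hjT
          have hj' := hTS hjT
          rw [hS', mem_filter] at hj'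
          obtain ⟨-, h, hh, he⟩ := hj'
          simp only at he
          exact ⟨h, mem_filter.2 ⟨hh, _, hjT, he.symm⟩, he.symm⟩
        · rintro ⟨h, hh, hjh⟩
          obtain ⟨-, j', hj', he⟩ := mem_filter.1 hh
          have : (⟨j, by omega⟩ : Fin (q * D + 1)) = j' := Fin.ext (by simp only; omega)
          rw [this]
          exact hj'
      refine ⟨?_, ?_, ?_, ?_⟩
      · rw [le_div_iff₀ hq0] at ht2
        have h1 : ((q * t + a + q * h₀ : ℕ) : ℝ) ≤ ((q * t + a + q * D : ℕ) : ℝ) := by
          have := Nat.mul_le_mul_left q hh₀D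
          exact_mod_cast (by omega : q * t + a + q * h₀ ≤ q * t + a + q * D)
        refine h1.trans ?_
        push_cast at ht2 ⊢
        linarith
      · have h1 : q * t + a + q * h₀ = a + q * (t + h₀) := by ring
        rw [h1]
        exact (Nat.modEq_iff_dvd' (by omega)).2 ⟨t + h₀, by omega⟩ |>.symm
      · intro h hh
        obtain ⟨r, hr, rfl⟩ := mem_image.1 hh
        have h1 : h₀ ≤ r := sInf_le_of hr
        have h2 : r ≤ D := hSD _ ((mem_filter.1 (hR1 hr)).1)
        have h3 : q * t + a + q * h₀ + q * (r - h₀) = q * t + (a + q * r) := by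
          have : q * h₀ + q * (r - h₀) = q * r := by
            rw [← mul_add]
            congr 1
            omega
          omega
        rw [h3]
        exact (hwin (q * r) (Nat.mul_le_mul_left q h2)).2 ⟨r, hR1 hr, rfl⟩
      · rintro y hy ⟨h, hh, hyh⟩
        obtain ⟨r, hr, rfl⟩ := mem_image.1 hh
        have h1 : h₀ ≤ r := sInf_le_of hr
        have h2 : r ≤ D := hSD _ ((mem_filter.1 (hR1 hr)).1)
        have h3 : q * h₀ + q * (r - h₀) = q * r := by
          rw [← mul_add]
          congr 1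
          omega
        have h4 : q * r ≤ q * D := Nat.mul_le_mul_left q h2
        have h5 : q * t + a + q * h₀ + y = q * t + (a + (q * h₀ + y)) := by ring
        rw [h5] at hy
        change y ≤ q * (r - h₀) at hyh
        obtain ⟨h', hh', he⟩ := (hwin (q * h₀ + y) (by omega)).1 hy
        have h6 : h' ≤ r := by
          have : q * h' ≤ q * r := by omega
          exact Nat.le_of_mul_le_mul_left this hq
        have h7 : h' ∈ R := hR3 r hr h' hh' h6
        have h8 : h₀ ≤ h' := sInf_le_of h7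
        refine ⟨h' - h₀, mem_image.2 ⟨h', h7, rfl⟩, ?_⟩
        have h9 : q * h₀ + q * (h' - h₀) = q * h' := by
          rw [← mul_add]
          congr 1
          omega
        omega
    · intro t _ t' _ h
      have h1 : q * t = q * t' := by
        have : q * t + a + q * h₀ = q * t' + a + q * h₀ := h
        omega
      exact Nat.eq_of_mul_eq_mul_left hq h1
  exact_mod_cast hmain

/-- many patterns, for large `x` -/
theorem many_patterns (hyp : FormsHyp) (q a D : ℕ) (hq : 1 ≤ q) (haq : Nat.Coprime a q)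
    (k : ℕ) (hk : 2 ≤ k) (H : Finset ℕ) (hHD : ∀ h ∈ H, h ≤ D)
    (hadm : ∀ p : ℕ, p.Prime → ∃ r : ℕ, ∀ h ∈ H, ¬ p ∣ r + h) (s : ℕ) (hsH : s ≤ H.card)
    (hs : 4 * (k : ℝ) + 29 / 50 ≤ Real.log s) (η : ℝ) (hη : 0 < η) :
    ∀ᶠ x : ℝ in atTop, ∃ G : Finset (Finset ℕ), G ⊆ (range (D + 1)).powerset ∧
      H.card ^ k ≤ s ^ k * (H.card * G.card) ∧
      ∀ P ∈ G, 0 ∈ P ∧ P.card = k ∧ x ^ (1 - η) ≤ cnt q a P x := by
  classical
  have h1 : ∀ S ∈ H.powersetCard s, ∀ᶠ x : ℝ in atTop,
      ∃ R : Finset ℕ, R ⊆ S ∧ R.card = k ∧ x ^ (1 - η) ≤ cnt q a (norm R) x := by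
    intro S hS
    obtain ⟨hS1, hS2⟩ := mem_powersetCard.1 hS
    exact one_pattern hyp q a D hq haq k hk S (fun h hh => hHD h (hS1 hh))
      (fun p hp => (hadm p hp).imp (fun r hr h hh => hr h (hS1 hh))) (by rw [hS2]; exact hs) η hη
  filter_upwards [(eventually_all_finset (H.powersetCard s)).2 h1] with x hx
  set F : Finset (Finset ℕ) := H.powerset.filter (fun R => R.card = k ∧
    x ^ (1 - η) ≤ cnt q a (norm R) x) with hF
  have hFcard : H.card ^ k ≤ s ^ k * F.card := by
    apply hitting_in H F s k hsH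
    intro S hSH hS
    obtain ⟨R, hR1, hR2, hR3⟩ := hx S (mem_powersetCard.2 ⟨hSH, hS⟩)
    exact ⟨R, mem_filter.2 ⟨mem_powerset.2 (hR1.trans hSH), hR2, hR3⟩, hR1, hR2.ge⟩
  have hFG : F.card ≤ H.card * (F.image norm).card := by
    rw [← card_product]
    apply card_le_card_of_injOn (fun R : Finset ℕ => (sInf (R : Set ℕ), norm R))
    · intro R hR
      rw [mem_coe, hF, mem_filter] at hR
      have hne : R.Nonempty := by
        rw [← card_pos]
        omega
      simp only [coe_product, Set.mem_prod, mem_coe]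
      refine ⟨mem_powerset.1 hR.1 (sInf_mem_of hne), mem_image_of_mem _ ?_⟩
      rw [hF, mem_filter]
      exact hR
    · intro R _ R' _ h
      have h2 := (Prod.ext_iff.1 h).1
      have h3 := (Prod.ext_iff.1 h).2
      exact norm_inj h3 h2
  refine ⟨F.image norm, ?_, hFcard.trans (Nat.mul_le_mul_left _ hFG), ?_⟩
  · intro P hP
    obtain ⟨R, hR, rfl⟩ := mem_image.1 hP
    rw [hF, mem_filter] at hR
    rw [mem_powerset]
    intro y hy
    obtain ⟨h, hh, rfl⟩ := mem_image.1 hy
    have := hHD h (mem_powerset.1 hR.1 hh)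
    rw [mem_range]
    omega
  · intro P hP
    obtain ⟨R, hR, rfl⟩ := mem_image.1 hP
    rw [hF, mem_filter] at hR
    have hne : R.Nonempty := by
      rw [← card_pos]
      omega
    exact ⟨zero_mem_norm hne, (card_norm R).trans hR.2.1, hR.2.2⟩

end Pool.Agent.TH779.Shat
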