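import Mathlib
import Pool.Agent.TH779.Shat.Patterns

/-! The uniform lower bound for the number of patterns of consecutive primes. -/

set_option autoImplicit false

namespace Pool.Agent.TH779.Shat

open Finset Filter

theorem floor_exp (y : ℝ) (hy : 9 ≤ y) : y - 42 / 100 ≤ Real.log ⌊Real.exp y⌋₊ := by
  have h1 : Real.exp y - 1 < ⌊Real.exp y⌋₊ := Nat.sub_one_lt_floor _
  have h2 : Real.exp (y - 42 / 100) ≤ Real.exp y - 1 := by
    rw [Real.exp_sub, div_le_iff₀ (Real.exp_pos _)]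
    have h3 : (1 : ℝ) + 42 / 100 ≤ Real.exp (42 / 100) := by
      have := Real.add_one_le_exp (42 / 100 : ℝ)
      linarith
    have h4 : (10 : ℝ) ≤ Real.exp y := by
      have := Real.add_one_le_exp y
      linarith
    nlinarith
  have h3 : Real.exp (y - 42 / 100) ≤ ⌊Real.exp y⌋₊ := by linarith
  have h4 := Real.log_le_log (Real.exp_pos _) h3
  rwa [Real.log_exp] at h4

theorem pat_main (hyp : FormsHyp) : ∃ D₀ : ℕ, ∀ D : ℕ, D₀ ≤ D → ∀ k : ℕ, 1 ≤ k →
    Real.exp (4 * k + 5) ≤ D / (2 * Real.log D) → ∀ q a : ℕ, 1 ≤ q → Nat.Coprime a q →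
    (D / (2 * Real.log D)) ^ k * Real.exp (-((k + 1) * (4 * k + 5))) ≤
      (Set.ncard {P : Finset ℕ | 0 ∈ P ∧ P.card = k + 1 ∧ (∀ h ∈ P, h ≤ D) ∧
        ∀ η : ℝ, 0 < η → ∃ᶠ x : ℝ in atTop, x ^ (1 - η) ≤ cnt q a P x} : ℝ) := by
  classical
  obtain ⟨D₀, hD₀⟩ := pset_card
  refine ⟨D₀, fun D hD k hk hkD q a hq haq => ?_⟩
  obtain ⟨hlow, hup⟩ := hD₀ D hD
  set H := pset D with hH
  set s := ⌊Real.exp (4 * k + 5)⌋₊ with hs
  have hkr : (1 : ℝ) ≤ k := by exact_mod_cast hk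
  have hslog : 4 * ((k + 1 : ℕ) : ℝ) + 29 / 50 ≤ Real.log s := by
    have := floor_exp (4 * (k : ℝ) + 5) (by linarith)
    rw [← hs] at this
    push_cast
    linarith
  have hsle : (s : ℝ) ≤ Real.exp (4 * k + 5) := Nat.floor_le (Real.exp_pos _).le
  have hsH : s ≤ H.card := by
    have : (s : ℝ) ≤ H.card := hsle.trans (hkD.trans hlow)
    exact_mod_cast this
  have hs1 : 1 ≤ s := by
    rw [hs]
    apply Nat.le_floor
    rw [Nat.cast_one]
    exact Real.one_le_exp (by linarith)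
  have hH1 : 1 ≤ H.card := hs1.trans hsH
  have hmany := many_patterns hyp q a D hq haq (k + 1) (by omega) H
    (fun h hh => (mem_Ioc.1 (mem_filter.1 hh).1).2)
    (fun p hp => pset_adm D hup p hp) s hsH hslog
  -- one family
  obtain ⟨G, hG⟩ := one_object (P := ((range (D + 1)).powerset.powerset : Finset (Finset (Finset ℕ))))
    (fun G η x => H.card ^ (k + 1) ≤ s ^ (k + 1) * (H.card * (G : Finset (Finset ℕ)).card) ∧
      ∀ P ∈ (G : Finset (Finset ℕ)), 0 ∈ P ∧ P.card = k + 1 ∧ x ^ (1 - η) ≤ cnt q a P x)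
    (by
      intro G η η' x hx hηη' hG
      refine ⟨hG.1, fun P hP => ⟨(hG.2 P hP).1, (hG.2 P hP).2.1, le_trans ?_ (hG.2 P hP).2.2⟩⟩
      exact Real.rpow_le_rpow_of_exponent_le hx (by linarith))
    (by
      intro η hη
      filter_upwards [hmany η hη] with x hx
      obtain ⟨G, hG1, hG2, hG3⟩ := hx
      exact ⟨⟨G, mem_powerset.2 hG1⟩, hG2, hG3⟩)
  obtain ⟨x₁, hx₁⟩ := (hG 1 one_pos).exists
  have hcard := hx₁.1
  have hsub : ((G : Finset (Finset ℕ)) : Set (Finset ℕ)) ⊆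
      {P : Finset ℕ | 0 ∈ P ∧ P.card = k + 1 ∧ (∀ h ∈ P, h ≤ D) ∧
        ∀ η : ℝ, 0 < η → ∃ᶠ x : ℝ in atTop, x ^ (1 - η) ≤ cnt q a P x} := by
    intro P hP
    have hP' : P ∈ (G : Finset (Finset ℕ)) := hP
    refine ⟨(hx₁.2 P hP').1, (hx₁.2 P hP').2.1, ?_, fun η hη => (hG η hη).mono fun x hx =>
      (hx.2 P hP').2.2⟩
    intro h hh
    have h1 := mem_powerset.1 G.2 hP'
    have h2 := mem_powerset.1 h1 hh
    rw [mem_range] at h2
    omega
  have hfin : {P : Finset ℕ | 0 ∈ P ∧ P.card = k + 1 ∧ (∀ h ∈ P, h ≤ D) ∧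
        ∀ η : ℝ, 0 < η → ∃ᶠ x : ℝ in atTop, x ^ (1 - η) ≤ cnt q a P x}.Finite := by
    apply ((range (D + 1)).powerset.finite_toSet).subset
    intro P hP
    rw [mem_coe, mem_powerset]
    intro h hh
    rw [mem_range]
    have := hP.2.2.1 h hh
    omega
  have hle : ((G : Finset (Finset ℕ)).card : ℝ) ≤
      (Set.ncard {P : Finset ℕ | 0 ∈ P ∧ P.card = k + 1 ∧ (∀ h ∈ P, h ≤ D) ∧
        ∀ η : ℝ, 0 < η → ∃ᶠ x : ℝ in atTop, x ^ (1 - η) ≤ cnt q a P x} : ℝ) := by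
    rw [← Set.ncard_coe_finset]
    exact_mod_cast Set.ncard_le_ncard hsub hfin
  refine le_trans ?_ hle
  have hHr : (0 : ℝ) < H.card := by exact_mod_cast hH1
  have hsr : (0 : ℝ) < s := by exact_mod_cast hs1
  have h1 : (H.card : ℝ) ^ k ≤ (s : ℝ) ^ (k + 1) * (G : Finset (Finset ℕ)).card := by
    have h2 : (H.card : ℝ) ^ (k + 1) ≤
        (s : ℝ) ^ (k + 1) * (H.card * (G : Finset (Finset ℕ)).card) := by exact_mod_cast hcard
    rw [pow_succ] at h2
    have h3 : (H.card : ℝ) ^ k * H.card ≤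
        ((s : ℝ) ^ (k + 1) * (G : Finset (Finset ℕ)).card) * H.card := by
      refine h2.trans (le_of_eq ?_)
      ring
    exact le_of_mul_le_mul_right h3 hHr
  have h2 : (s : ℝ) ^ (k + 1) ≤ Real.exp ((k + 1) * (4 * k + 5)) := by
    calc (s : ℝ) ^ (k + 1) ≤ (Real.exp (4 * k + 5)) ^ (k + 1) :=
          pow_le_pow_left₀ hsr.le hsle _
      _ = Real.exp ((k + 1) * (4 * k + 5)) := by
          rw [← Real.exp_nat_mul]
          push_cast
          rfl
  have h0 : 0 ≤ (D : ℝ) / (2 * Real.log D) := (Real.exp_pos _).le.trans hkD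
  calc ((D : ℝ) / (2 * Real.log D)) ^ k * Real.exp (-((k + 1) * (4 * k + 5)))
      ≤ (H.card : ℝ) ^ k * Real.exp (-((k + 1) * (4 * k + 5))) :=
        mul_le_mul_of_nonneg_right (pow_le_pow_left₀ h0 hlow _) (Real.exp_pos _).le
    _ ≤ ((s : ℝ) ^ (k + 1) * (G : Finset (Finset ℕ)).card) *
        Real.exp (-((k + 1) * (4 * k + 5))) :=
        mul_le_mul_of_nonneg_right h1 (Real.exp_pos _).le
    _ ≤ (Real.exp ((k + 1) * (4 * k + 5)) * (G : Finset (Finset ℕ)).card) *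
        Real.exp (-((k + 1) * (4 * k + 5))) :=
        mul_le_mul_of_nonneg_right (mul_le_mul_of_nonneg_right h2 (Nat.cast_nonneg _))
          (Real.exp_pos _).le
    _ = (G : Finset (Finset ℕ)).card := by
        rw [mul_right_comm, ← Real.exp_add]
        simp

end Pool.Agent.TH779.Shat
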