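import Pool.Agent.TH779.Shat.Comb

/-! Families which hit every set in a positive proportion shatter a positive proportion of the ground set. -/

set_option autoImplicit false

namespace Pool.Agent.TH779.Shat

open Finset

theorem sum_choose_exp (m d : ℕ) (x : ℝ) (hx0 : 0 < x) (hx1 : x ≤ 1) :
    ((∑ k ∈ Iic d, m.choose k : ℕ) : ℝ) ≤ (1 / x) ^ d * Real.exp (x * m) := by
  have h1 : ∀ k ∈ Iic d, ((m.choose k : ℕ) : ℝ) ≤ (1 / x) ^ d * (x ^ k * (m.choose k : ℝ)) := by
    intro k hk
    rw [mem_Iic] at hk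
    have h2 : (1 : ℝ) ≤ (1 / x) ^ d * x ^ k := by
      have h3 : (1 / x) ^ d * x ^ k = (1 / x) ^ (d - k) := by
        have h4 : (1 / x) ^ d = (1 / x) ^ (d - k) * (1 / x) ^ k := by
          rw [← pow_add]; congr 1; omega
        rw [h4, mul_assoc, ← mul_pow, one_div_mul_cancel hx0.ne', one_pow, mul_one]
      rw [h3]
      apply one_le_pow₀
      rw [le_div_iff₀ hx0]; linarith
    calc ((m.choose k : ℕ) : ℝ) = 1 * (m.choose k : ℝ) := by ring
      _ ≤ ((1 / x) ^ d * x ^ k) * (m.choose k : ℝ) :=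
          mul_le_mul_of_nonneg_right h2 (Nat.cast_nonneg _)
      _ = _ := by ring
  have h5 : (∑ k ∈ Iic d, x ^ k * (m.choose k : ℝ)) ≤ ∑ k ∈ range (m + 1), x ^ k * (m.choose k : ℝ) := by
    have h6 : (∑ k ∈ Iic d, x ^ k * (m.choose k : ℝ)) ≤
        ∑ k ∈ range (m + 1) ∪ Iic d, x ^ k * (m.choose k : ℝ) :=
      sum_le_sum_of_subset_of_nonneg subset_union_right (fun i _ _ => by positivity)
    refine h6.trans (le_of_eq ?_)
    symm
    apply sum_subset subset_union_left
    intro k _ hk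
    rw [mem_range, not_lt] at hk
    rw [Nat.choose_eq_zero_of_lt (by omega)]
    simp
  have h7 : (∑ k ∈ range (m + 1), x ^ k * (m.choose k : ℝ)) = (x + 1) ^ m := by
    rw [add_pow]
    apply sum_congr rfl
    intro k _
    rw [one_pow, mul_one]
  have h8 : (x + 1) ^ m ≤ Real.exp (x * m) := by
    have := Real.add_one_le_exp x
    calc (x + 1) ^ m ≤ (Real.exp x) ^ m := pow_le_pow_left₀ (by linarith) this m
      _ = Real.exp (x * m) := by rw [← Real.exp_nat_mul]; congr 1; ring
  push_cast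
  calc (∑ k ∈ Iic d, (m.choose k : ℝ)) ≤ ∑ k ∈ Iic d, (1 / x) ^ d * (x ^ k * (m.choose k : ℝ)) :=
        sum_le_sum h1
    _ = (1 / x) ^ d * ∑ k ∈ Iic d, x ^ k * (m.choose k : ℝ) := by rw [mul_sum]
    _ ≤ (1 / x) ^ d * Real.exp (x * m) := by
        apply mul_le_mul_of_nonneg_left _ (by positivity)
        exact h5.trans (h7.le.trans h8)

/-- The logarithmic form of the Sauer-Shelah lemma. -/
theorem exists_shattered_log {α : Type*} [Fintype α] [DecidableEq α] (F : Finset (Finset α))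
    (hF : F.Nonempty) : ∃ B : Finset α, F.Shatters B ∧ ∀ x : ℝ, 0 < x → x ≤ 1 →
      Real.log F.card ≤ B.card * Real.log (1 / x) + x * Fintype.card α := by
  have h1 : F.shatterer.Nonempty := ⟨∅, mem_shatterer.2 (shatters_empty.2 hF)⟩
  obtain ⟨B, hB, hB2⟩ := exists_mem_eq_sup F.shatterer h1 card
  refine ⟨B, mem_shatterer.1 hB, ?_⟩
  have h2 : F.vcDim = B.card := hB2
  intro x hx0 hx1
  have h3 : F.card ≤ ∑ k ∈ Iic B.card, (Fintype.card α).choose k := by
    rw [← h2]
    exact (card_le_card_shatterer F).trans card_shatterer_le_sum_vcDim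
  have h4 : (F.card : ℝ) ≤ (1 / x) ^ B.card * Real.exp (x * Fintype.card α) :=
    (Nat.cast_le.2 h3).trans (sum_choose_exp _ _ x hx0 hx1)
  have h5 : (0 : ℝ) < F.card := by exact_mod_cast card_pos.2 hF
  have h6 : 0 < 1 / x := by positivity
  calc Real.log F.card ≤ Real.log ((1 / x) ^ B.card * Real.exp (x * Fintype.card α)) :=
        Real.log_le_log h5 h4
    _ = _ := by
        rw [Real.log_mul (by positivity) (Real.exp_pos _).ne', Real.log_pow, Real.log_exp]

/-- the constant -/
noncomputable def lin (η : ℝ) : ℝ := (η * Real.log 2 / 6) / Real.log (1 / (η * Real.log 2 / 6))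

theorem lin_arg {η : ℝ} (h0 : 0 < η) (h1 : η ≤ 1) :
    0 < η * Real.log 2 / 6 ∧ η * Real.log 2 / 6 < 1 ∧ 0 < Real.log (1 / (η * Real.log 2 / 6)) := by
  have hl := Real.log_pos (by norm_num : (1 : ℝ) < 2)
  have hl2 : Real.log 2 < 1 := by
    have := Real.log_two_lt_d9; linarith
  have h2 : 0 < η * Real.log 2 / 6 := by positivity
  have h3 : η * Real.log 2 / 6 < 1 := by nlinarith
  refine ⟨h2, h3, ?_⟩
  apply Real.log_pos
  rw [lt_div_iff₀ h2]; linarith

theorem lin_pos {η : ℝ} (h0 : 0 < η) (h1 : η ≤ 1) : 0 < lin η := by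
  obtain ⟨h2, -, h4⟩ := lin_arg h0 h1
  exact div_pos h2 h4

/-- A family of subsets of a set with `m ≥ 2` elements such that every set `A` contains a member with
at least `η |A|` elements shatters a set with at least `lin η * m` elements. -/
theorem linear_shatter {η : ℝ} (h0 : 0 < η) (h1 : η ≤ 1) {α : Type*} [Fintype α] [DecidableEq α]
    (hm : 2 ≤ Fintype.card α) (F : Finset (Finset α))
    (hF : ∀ A : Finset α, A.Nonempty → ∃ J ∈ F, J ⊆ A ∧ η * A.card ≤ J.card) :
    ∃ I : Finset α, F.Shatters I ∧ lin η * Fintype.card α ≤ I.card := by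
  classical
  set m := Fintype.card α with hmdef
  obtain ⟨hx0, hx1, hxl⟩ := lin_arg h0 h1
  set x := η * Real.log 2 / 6 with hx
  have hne : F.Nonempty := by
    have : (univ : Finset α).Nonempty := by
      rw [← card_pos, card_univ]; omega
    obtain ⟨J, hJ, -⟩ := hF _ this
    exact ⟨J, hJ⟩
  obtain ⟨I, hI, hlog⟩ := exists_shattered_log F hne
  refine ⟨I, hI, ?_⟩
  have h2 := hlog x hx0 hx1.le
  -- lower bound of the family
  set s := m / 2 with hs
  have hs1 : 1 ≤ s := by omega
  have hs2 : 2 * s ≤ m := by omega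
  have hs3 : m ≤ 3 * s := by omega
  set r := ⌈η * s⌉₊ with hr
  have h3 := hitting F s r (by omega) (fun S hS => by
    obtain ⟨J, hJ, hJS, hc⟩ := hF S (by rw [← card_pos, hS]; omega)
    refine ⟨J, hJ, hJS, ?_⟩
    rw [hr]
    apply Nat.ceil_le.2
    rw [← hS]; exact hc)
  rw [mul_one] at h3
  have h4 : (2 : ℝ) ^ r ≤ F.card := by
    have h5 : (2 * s) ^ r ≤ s ^ r * F.card := (Nat.pow_le_pow_left hs2 r).trans h3
    rw [mul_pow, mul_comm] at h5
    have h6 := Nat.le_of_mul_le_mul_left h5 (Nat.pow_pos (by omega))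
    exact_mod_cast h6
  have h7 : r * Real.log 2 ≤ Real.log F.card := by
    rw [← Real.log_pow]
    exact Real.log_le_log (by positivity) h4
  have h8 : η * s ≤ r := Nat.le_ceil _
  have h9 : (m : ℝ) ≤ 3 * s := by exact_mod_cast hs3
  have hl := Real.log_pos (by norm_num : (1 : ℝ) < 2)
  have h10 : 2 * x * m ≤ r * Real.log 2 := by
    have h11 : η * s * Real.log 2 ≤ r * Real.log 2 := mul_le_mul_of_nonneg_right h8 hl.le
    have h12 : 2 * x * m ≤ η * s * Real.log 2 := by
      rw [hx]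
      have : 0 < η * Real.log 2 := by positivity
      nlinarith
    linarith
  have h13 : x * m ≤ I.card * Real.log (1 / x) := by linarith
  unfold lin
  rw [← hx, div_mul_eq_mul_div, div_le_iff₀ hxl]
  exact h13

end Pool.Agent.TH779.Shat
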